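import Pool.Agent.Helper3.ThinExist

set_option autoImplicit false
set_option linter.unusedSectionVars false

namespace Pool.Agent.Helper3.Thin

open Finset

lemma carry {q : ℕ} [Fact q.Prime] (x y : ZMod q) (d : ℕ) (hd : d < q)
    (h : x + y = (d : ZMod q)) : ∃ w : Fin 2, x.val + y.val = d + w * q := by
  have hq : 0 < q := (Fact.out : q.Prime).pos
  haveI : NeZero q := ⟨hq.ne'⟩
  have h1 : (x + y).val = d := by
    rw [h, ZMod.val_natCast, Nat.mod_eq_of_lt hd]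
  have hx := ZMod.val_lt x
  have hy := ZMod.val_lt y
  rw [ZMod.val_add] at h1
  rcases lt_or_ge (x.val + y.val) q with hlt | hge
  · refine ⟨0, ?_⟩
    rw [Nat.mod_eq_of_lt hlt] at h1
    simpa using h1
  · refine ⟨1, ?_⟩
    rw [Nat.mod_eq_sub_mod hge, Nat.mod_eq_of_lt (by omega)] at h1
    simp only [Fin.val_one, one_mul]
    omega

/-- The integer with prescribed low digits `u` and high digits `z`. -/
def und {q : ℕ} (u z : ZMod q × ZMod q) : ℕ :=
  (u.2.val + u.1.val * q) + (z.2.val + z.1.val * q) * q ^ 2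

lemma two_digits_lt {q x y : ℕ} (hx : x < q) (hy : y < q) : x + y * q < q ^ 2 := by
  have : (y + 1) * q ≤ q * q := Nat.mul_le_mul_right _ hy
  rw [sq]
  nlinarith

lemma dig_two {q : ℕ} [Fact q.Prime] (u : ZMod q × ZMod q) :
    dig q (u.2.val + u.1.val * q) = u := by
  have hq : 0 < q := (Fact.out : q.Prime).pos
  haveI : NeZero q := ⟨hq.ne'⟩
  unfold dig
  have h1 : (u.2.val + u.1.val * q) / q = u.1.val := by
    rw [Nat.add_mul_div_right _ _ hq, Nat.div_eq_of_lt (ZMod.val_lt _), zero_add]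
  rw [h1]
  refine Prod.ext ?_ ?_
  · simp
  · simp

lemma und_lt {q : ℕ} [Fact q.Prime] (u z : ZMod q × ZMod q) : und u z < q ^ 4 := by
  have hq : 0 < q := (Fact.out : q.Prime).pos
  haveI : NeZero q := ⟨hq.ne'⟩
  unfold und
  have h1 := two_digits_lt (ZMod.val_lt u.2) (ZMod.val_lt u.1)
  have h2 := two_digits_lt (ZMod.val_lt z.2) (ZMod.val_lt z.1)
  have e : q ^ 4 = q ^ 2 * q ^ 2 := by ring
  rw [e]
  nlinarith

lemma dig_und {q : ℕ} [Fact q.Prime] (u z : ZMod q × ZMod q) : dig q (und u z) = u := by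
  have h : dig q (und u z) = dig q (u.2.val + u.1.val * q) := by
    rw [dig_eq_iff]
    unfold und
    rw [Nat.add_mul_mod_self_right]
  rw [h, dig_two]

lemma dig_und_high {q : ℕ} [Fact q.Prime] (u z : ZMod q × ZMod q) :
    dig q (und u z / q ^ 2) = z := by
  have hq : 0 < q := (Fact.out : q.Prime).pos
  haveI : NeZero q := ⟨hq.ne'⟩
  have h1 : und u z / q ^ 2 = z.2.val + z.1.val * q := by
    unfold und
    rw [Nat.add_mul_div_right _ _ (by positivity),
      Nat.div_eq_of_lt (two_digits_lt (ZMod.val_lt u.2) (ZMod.val_lt u.1)), zero_add]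
  rw [h1, dig_two]

/-- Coverage inside one scale. -/
lemma cover_one {q : ℕ} [Fact q.Prime] {G : Finset (ZMod q × ZMod q)} (hG : GoodSet G)
    (σ : ZMod q × ZMod q → ZMod q × ZMod q) (n : ℕ) (h1 : 4 * q ^ 4 ≤ n) (h2 : n ≤ 1024 * q ^ 4) :
    ∃ a b : ℕ, ∃ ε ε' : Lab,
      (a < q ^ 4 ∧ dig q a ∈ G ∧ dig q (a / q ^ 2) - σ (dig q a) ∈ G) ∧
      (b < q ^ 4 ∧ dig q b ∈ G ∧ dig q (b / q ^ 2) - σ (dig q b) ∈ G) ∧
      (a + off q ε) + (b + off q ε') = n := by
  have hp : q.Prime := Fact.out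
  have hq : 0 < q := hp.pos
  have hq2 : 2 ≤ q := hp.two_le
  haveI : NeZero q := ⟨hq.ne'⟩
  have hs : q + q ^ 2 + q ^ 3 ≤ q ^ 4 := by
    have e2 : 2 * q ≤ q ^ 2 := by nlinarith
    have e3 : 2 * q ^ 2 ≤ q ^ 3 := by nlinarith [pow_pos hq 2]
    have e4 : 2 * q ^ 3 ≤ q ^ 4 := by nlinarith [pow_pos hq 3]
    nlinarith
  obtain ⟨m, hm⟩ : ∃ m, n = m + (q + q ^ 2 + q ^ 3) := ⟨n - (q + q ^ 2 + q ^ 3), by omega⟩
  set N := m / q ^ 4 with hN
  set D := m % q ^ 4 with hD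
  have hmDN : m = D + N * q ^ 4 := by
    rw [hD, hN, mul_comm, Nat.mod_add_div]
  have hq4 : 0 < q ^ 4 := by positivity
  have hN3 : 3 ≤ N := by
    rw [hN, Nat.le_div_iff_mul_le hq4]
    omega
  have hN4 : N ≤ 1024 := by
    rw [hN]
    have : m < 1025 * q ^ 4 := by omega
    have := Nat.div_lt_of_lt_mul (m := m) (n := q ^ 4) (k := 1025) (by rw [mul_comm]; exact this)
    omega
  have hDlt : D < q ^ 4 := Nat.mod_lt _ hq4
  -- digits of D
  set d0 := D % q with hd0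
  set D1 := D / q with hD1
  set d1 := D1 % q with hd1
  set D2 := D1 / q with hD2
  set d2 := D2 % q with hd2
  set d3 := D2 / q with hd3
  have e1 : D = d0 + D1 * q := by rw [hd0, hD1, mul_comm, Nat.mod_add_div]
  have e2 : D1 = d1 + D2 * q := by rw [hd1, hD2, mul_comm, Nat.mod_add_div]
  have e3 : D2 = d2 + d3 * q := by rw [hd2, hd3, mul_comm, Nat.mod_add_div]
  have hDe : D = (d0 + d1 * q) + (d2 + d3 * q) * q ^ 2 := by
    rw [e1, e2, e3]
    ring
  have hl0 : d0 < q := Nat.mod_lt _ hq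
  have hl1 : d1 < q := Nat.mod_lt _ hq
  have hl2 : d2 < q := Nat.mod_lt _ hq
  have hl3 : d3 < q := by
    by_contra hc
    push Not at hc
    have : q * q * q ^ 2 ≤ d3 * q * q ^ 2 := by gcongr
    have e : q ^ 4 = q * q * q ^ 2 := by ring
    rw [e] at hDlt
    nlinarith [Nat.zero_le (d2 * q ^ 2)]
  obtain ⟨u, hu, u', hu', huu⟩ := hG.cover ((d1 : ZMod q), (d0 : ZMod q))
  obtain ⟨z, hz, z', hz', hzz⟩ := hG.cover (((d3 : ZMod q), (d2 : ZMod q)) - σ u - σ u')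
  set y := z + σ u with hy
  set y' := z' + σ u' with hy'
  have hyy : y + y' = ((d3 : ZMod q), (d2 : ZMod q)) := by
    rw [hy, hy']
    calc z + σ u + (z' + σ u') = (z + z') + σ u + σ u' := by abel
      _ = _ := by rw [hzz]; abel
  have k0 := carry u.2 u'.2 d0 hl0 (by rw [← Prod.snd_add, huu])
  have k1 := carry u.1 u'.1 d1 hl1 (by rw [← Prod.fst_add, huu])
  have k2 := carry y.2 y'.2 d2 hl2 (by rw [← Prod.snd_add, hyy])
  have k3 := carry y.1 y'.1 d3 hl3 (by rw [← Prod.fst_add, hyy])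
  obtain ⟨w0, hw0⟩ := k0
  obtain ⟨w1, hw1⟩ := k1
  obtain ⟨w2, hw2⟩ := k2
  obtain ⟨w3, hw3⟩ := k3
  have hsum : und u y + und u' y' = D + w0 * q + w1 * q ^ 2 + w2 * q ^ 3 + w3 * q ^ 4 := by
    rw [hDe]
    unfold und
    calc _ = (u.2.val + u'.2.val) + (u.1.val + u'.1.val) * q + (y.2.val + y'.2.val) * q ^ 2
        + (y.1.val + y'.1.val) * q ^ 3 := by ring
      _ = _ := by
        rw [hw0, hw1, hw2, hw3]
        ring
  -- the top labels
  have hw3' := w3.isLt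
  have hsplit : ∃ t t' : Fin 512, ((t : ℕ) + 1) + ((t' : ℕ) + 1) + w3 = N := by
    rcases le_or_gt (N - w3) 513 with hle | hgt
    · exact ⟨0, ⟨N - w3 - 2, by omega⟩, by simp only [Fin.val_zero]; omega⟩
    · exact ⟨⟨511, by norm_num⟩, ⟨N - w3 - 513, by omega⟩, by simp only; omega⟩
  obtain ⟨t, t', htt⟩ := hsplit
  have hcomp : ∀ w : Fin 2, ((1 - w : Fin 2) : ℕ) + w = 1 := by decide
  refine ⟨und u y, und u' y', (1 - w0, 1 - w1, 1 - w2, t), (0, 0, 0, t'), ?_, ?_, ?_⟩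
  · refine ⟨und_lt _ _, ?_, ?_⟩
    · rw [dig_und]; exact hu
    · rw [dig_und, dig_und_high, hy, add_sub_cancel_right]; exact hz
  · refine ⟨und_lt _ _, ?_, ?_⟩
    · rw [dig_und]; exact hu'
    · rw [dig_und, dig_und_high, hy', add_sub_cancel_right]; exact hz'
  · unfold off
    simp only [Fin.val_zero, zero_mul, zero_add]
    have c0 := hcomp w0
    have c1 := hcomp w1
    have c2 := hcomp w2
    calc _ = (und u y + und u' y') + (((1 - w0 : Fin 2) : ℕ) * q + ((1 - w1 : Fin 2) : ℕ) * q ^ 2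
          + ((1 - w2 : Fin 2) : ℕ) * q ^ 3 + (((t : ℕ) + 1) + ((t' : ℕ) + 1)) * q ^ 4) := by ring
      _ = D + (((1 - w0 : Fin 2) : ℕ) + w0) * q + (((1 - w1 : Fin 2) : ℕ) + w1) * q ^ 2
          + (((1 - w2 : Fin 2) : ℕ) + w2) * q ^ 3
          + (((t : ℕ) + 1) + ((t' : ℕ) + 1) + w3) * q ^ 4 := by rw [hsum]; ring
      _ = n := by
        rw [c0, c1, c2, htt, hm, hmDN]
        ring

/-- Pairs inside one scale. -/
lemma same_scale {q : ℕ} [Fact q.Prime] {G : Finset (ZMod q × ZMod q)} (hG : GoodSet G)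
    (σ : ZMod q × ZMod q → ZMod q × ZMod q) (s : ℕ) (S : Finset (ℕ × ℕ))
    (hs : ∀ p ∈ S, p.1 + p.2 = s)
    (h1 : ∀ p ∈ S, p.1 < q ^ 4 ∧ dig q p.1 ∈ G ∧ dig q (p.1 / q ^ 2) - σ (dig q p.1) ∈ G)
    (h2 : ∀ p ∈ S, p.2 < q ^ 4 ∧ dig q p.2 ∈ G ∧ dig q (p.2 / q ^ 2) - σ (dig q p.2) ∈ G) :
    S.card ≤ 1296 := by
  classical
  have hp : q.Prime := Fact.out
  have hq : 0 < q := hp.pos
  have e4 : q ^ 4 = q ^ 2 * q ^ 2 := by ring
  have hfib := card_le_mul_card_image (f := fun p : ℕ × ℕ => (dig q p.1, dig q p.2)) S 36 (by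
    intro b hb
    rw [mem_image] at hb
    obtain ⟨p0, hp0, hb0⟩ := hb
    set T := S.filter (fun p => (dig q p.1, dig q p.2) = b) with hT
    have hTS : ∀ p ∈ T, p ∈ S ∧ p.1 % q ^ 2 = p0.1 % q ^ 2 ∧ p.2 % q ^ 2 = p0.2 % q ^ 2 := by
      intro p hp
      rw [hT, mem_filter] at hp
      have h3 : (dig q p.1, dig q p.2) = (dig q p0.1, dig q p0.2) := by rw [hp.2, ← hb0]
      simp only [Prod.mk.injEq] at h3
      exact ⟨hp.1, (dig_eq_iff _ _).1 h3.1, (dig_eq_iff _ _).1 h3.2⟩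
    refine le_trans ?_ (pair_count hG
      (dig q ((s - p0.1 % q ^ 2 - p0.2 % q ^ 2) / q ^ 2) - σ (dig q p0.1) - σ (dig q p0.2)))
    refine card_le_card_of_injOn (fun p => (dig q (p.1 / q ^ 2) - σ (dig q p.1),
      dig q (p.2 / q ^ 2) - σ (dig q p.2))) ?_ ?_
    · intro p hp
      have hp' : p ∈ T := hp
      obtain ⟨hpS, m1, m2⟩ := hTS p hp'
      simp only [coe_filter, Set.mem_ofPred_eq, mem_product]
      refine ⟨⟨(h1 p hpS).2.2, (h2 p hpS).2.2⟩, ?_⟩
      have d1 : dig q p.1 = dig q p0.1 := (dig_eq_iff _ _).2 m1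
      have d2 : dig q p.2 = dig q p0.2 := (dig_eq_iff _ _).2 m2
      have hsum : p.1 / q ^ 2 + p.2 / q ^ 2 = (s - p0.1 % q ^ 2 - p0.2 % q ^ 2) / q ^ 2 := by
        have a1 := Nat.div_add_mod p.1 (q ^ 2)
        have a2 := Nat.div_add_mod p.2 (q ^ 2)
        have a3 := hs p hpS
        have a4 : s - p0.1 % q ^ 2 - p0.2 % q ^ 2 = q ^ 2 * (p.1 / q ^ 2 + p.2 / q ^ 2) := by
          rw [mul_add]
          omega
        rw [a4, Nat.mul_div_cancel_left _ (by positivity)]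
      rw [d1, d2, ← hsum]
      rcases dig_add hq (p.1 / q ^ 2) (p.2 / q ^ 2) with h | h
      · left
        rw [← h]
        abel
      · right
        have h' : dig q (p.1 / q ^ 2 + p.2 / q ^ 2)
            = dig q (p.1 / q ^ 2) + dig q (p.2 / q ^ 2) + (1, 0) := by rw [h]; abel
        rw [h']
        abel
    · intro p hp p' hp' h
      have hp1 : p ∈ T := hp
      have hp2 : p' ∈ T := hp'
      obtain ⟨hpS, m1, m2⟩ := hTS p hp1
      obtain ⟨hpS', m1', m2'⟩ := hTS p' hp2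
      simp only [Prod.mk.injEq] at h
      have d1 : dig q p.1 = dig q p'.1 := (dig_eq_iff _ _).2 (m1.trans m1'.symm)
      have d2 : dig q p.2 = dig q p'.2 := (dig_eq_iff _ _).2 (m2.trans m2'.symm)
      rw [d1, d2] at h
      have g1 : dig q (p.1 / q ^ 2) = dig q (p'.1 / q ^ 2) := sub_left_injective h.1
      have g2 : dig q (p.2 / q ^ 2) = dig q (p'.2 / q ^ 2) := sub_left_injective h.2
      refine Prod.ext ?_ ?_
      · by_contra hne
        exact high_ne hq hne (h1 p hpS).1 (h1 p' hpS').1 d1 g1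
      · by_contra hne
        exact high_ne hq hne (h2 p hpS).1 (h2 p' hpS').1 d2 g2)
  have himg : (S.image (fun p : ℕ × ℕ => (dig q p.1, dig q p.2))).card ≤ 36 := by
    refine le_trans (card_le_card ?_) (pair_count hG (dig q s))
    intro b hb
    rw [mem_image] at hb
    obtain ⟨p, hp, rfl⟩ := hb
    rw [mem_filter, mem_product]
    refine ⟨⟨(h1 p hp).2.1, (h2 p hp).2.1⟩, ?_⟩
    rw [← hs p hp]
    exact dig_add hq _ _
  calc S.card ≤ 36 * _ := hfib
    _ ≤ 36 * 36 := Nat.mul_le_mul_left _ himg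
    _ = 1296 := by norm_num

end Pool.Agent.Helper3.Thin
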