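import Pool.Agent.Helper3.ThinMain

set_option autoImplicit false

namespace Pool.Agent.Helper3.BasisLogOverLogLogOld

/-- There is a set `A` of natural numbers such that every natural number is a sum of two elements
of `A`, while the number of ordered representations of `n` as a sum of two elements of `A` is at
most `C * log n / log log n` for all sufficiently large `n`. -/
theorem result :
    ∃ A : Set ℕ,
      (∀ n : ℕ, ∃ a ∈ A, ∃ b ∈ A, a + b = n) ∧
      ∃ C : ℝ, ∀ᶠ n : ℕ in Filter.atTop,
        (({p : ℕ × ℕ | p.1 ∈ A ∧ p.2 ∈ A ∧ p.1 + p.2 = n} : Set (ℕ × ℕ)).ncard : ℝ)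
          ≤ C * (Real.log n / Real.log (Real.log n)) :=
  Pool.Agent.Helper3.Thin.thin_basis

end Pool.Agent.Helper3.BasisLogOverLogLogOld
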