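import Mathlib

set_option autoImplicit false
set_option linter.unusedSectionVars false

namespace Pool.Agent.Helper3.Thin

open Finset Filter

lemma exists_fac (x : ℕ) : ∃ M : ℕ, 243 ^ M * x ^ 8 ≤ M.factorial := by
  have h := FloorSemiring.tendsto_pow_div_factorial_atTop (243 : ℝ)
  have hpos : (0 : ℝ) < 1 / ((x : ℝ) ^ 8 + 1) := by positivity
  obtain ⟨M, hM⟩ := (h.eventually (gt_mem_nhds hpos)).exists
  refine ⟨M, ?_⟩
  have hf : (0 : ℝ) < (M.factorial : ℝ) := by exact_mod_cast M.factorial_pos
  rw [div_lt_div_iff₀ hf (by positivity)] at hM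
  have h2 : (243 : ℝ) ^ M * (x : ℝ) ^ 8 ≤ (M.factorial : ℝ) := by
    nlinarith [pow_pos (show (0 : ℝ) < 243 by norm_num) M]
  exact_mod_cast h2

/-- The least `M` with `243 ^ M * x ^ 8 ≤ M!`. -/
noncomputable def facBd (x : ℕ) : ℕ := by
  classical exact Nat.find (exists_fac x)

lemma facBd_spec (x : ℕ) : 243 ^ (facBd x) * x ^ 8 ≤ (facBd x).factorial := by
  classical
  unfold facBd
  exact Nat.find_spec (exists_fac x)

lemma facBd_le {x M : ℕ} (h : 243 ^ M * x ^ 8 ≤ M.factorial) : facBd x ≤ M := by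
  classical
  unfold facBd
  exact Nat.find_min' (exists_fac x) h

lemma facBd_mono {x y : ℕ} (h : x ≤ y) : facBd x ≤ facBd y := by
  apply facBd_le
  refine le_trans ?_ (facBd_spec y)
  exact Nat.mul_le_mul_left _ (Nat.pow_le_pow_left h 8)

lemma log_fac (M : ℕ) (hM : 0 < M) : (M : ℝ) * Real.log M - M ≤ Real.log (M.factorial : ℝ) := by
  have h := Real.pow_div_factorial_le_exp (x := (M : ℝ)) (Nat.cast_nonneg _) M
  have hf : (0 : ℝ) < (M.factorial : ℝ) := by exact_mod_cast M.factorial_pos
  have hM' : (0 : ℝ) < (M : ℝ) := by exact_mod_cast hM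
  have h2 := Real.log_le_log (by positivity) h
  rw [Real.log_exp, Real.log_div (by positivity) hf.ne', Real.log_pow] at h2
  linarith

/-- The least `M` is `O(log x / log log x)`. -/
lemma facBd_bound : ∀ᶠ n : ℕ in atTop,
    (facBd n : ℝ) ≤ 17 * (Real.log n / Real.log (Real.log n)) ∧
    1 ≤ Real.log n / Real.log (Real.log n) := by
  have t1 : Tendsto (fun n : ℕ => Real.log (n : ℝ)) atTop atTop :=
    Real.tendsto_log_atTop.comp tendsto_natCast_atTop_atTop
  have t2 : Tendsto (fun n : ℕ => Real.log (Real.log (n : ℝ))) atTop atTop :=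
    Real.tendsto_log_atTop.comp t1
  have o1 := Real.isLittleO_log_id_atTop.def (show (0 : ℝ) < 1 / 4 by norm_num)
  have e1 := t1.eventually o1
  have e2 := t2.eventually o1
  have e3 := t2.eventually (eventually_ge_atTop (4 * (1 + Real.log 243)))
  have e4 := t2.eventually (eventually_ge_atTop (1 : ℝ))
  have e5 := t1.eventually (eventually_ge_atTop (1 : ℝ))
  filter_upwards [e1, e2, e3, e4, e5, eventually_ge_atTop 1] with n h1 h2 h3 h4 h5 h6
  set L := Real.log (n : ℝ) with hL
  set l := Real.log L with hl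
  have hL0 : 0 < L := by linarith
  have hl0 : 0 < l := by linarith
  have h1' : l ≤ L := by
    have := Real.log_le_sub_one_of_pos hL0
    linarith
  have h2' : Real.log l ≤ 1 / 4 * l := by
    have h7 : 0 ≤ Real.log l := Real.log_nonneg h4
    simp only [id, Real.norm_eq_abs] at h2
    rwa [abs_of_nonneg h7, abs_of_nonneg hl0.le] at h2
  have hratio : 1 ≤ L / l := by rwa [one_le_div hl0]
  refine ⟨?_, hratio⟩
  set M := ⌈16 * (L / l)⌉₊ with hM
  have hM1 : 16 * (L / l) ≤ M := Nat.le_ceil _
  have hM2 : (M : ℝ) ≤ 17 * (L / l) := by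
    have := Nat.ceil_lt_add_one (show 0 ≤ 16 * (L / l) by positivity)
    linarith
  refine le_trans ?_ hM2
  have hMpos : (0 : ℝ) < M := by linarith
  have hMpos' : 0 < M := by exact_mod_cast hMpos
  norm_cast
  apply facBd_le
  have hn : (0 : ℝ) < n := by exact_mod_cast h6
  have hf : (0 : ℝ) < (M.factorial : ℝ) := by exact_mod_cast M.factorial_pos
  have key : (M : ℝ) * Real.log 243 + 8 * L ≤ Real.log (M.factorial : ℝ) := by
    have hlogM : l - Real.log l ≤ Real.log M := by
      rw [hl, ← Real.log_div hL0.ne' hl0.ne']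
      apply Real.log_le_log (by positivity)
      linarith
    have h8 : l / 2 ≤ Real.log M - 1 - Real.log 243 := by linarith
    have h9 : 8 * L ≤ (M : ℝ) * (Real.log M - 1 - Real.log 243) := by
      calc 8 * L = 16 * (L / l) * (l / 2) := by field_simp; ring
        _ ≤ (M : ℝ) * (l / 2) := by gcongr
        _ ≤ _ := by gcongr
    have h10 := log_fac M hMpos'
    nlinarith
  have h11 : Real.log ((243 : ℝ) ^ M * (n : ℝ) ^ 8) ≤ Real.log (M.factorial : ℝ) := by
    rw [Real.log_mul (by positivity) (by positivity), Real.log_pow, Real.log_pow]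
    push_cast
    linarith
  have h12 := (Real.log_le_log_iff (by positivity) hf).1 h11
  exact_mod_cast h12

end Pool.Agent.Helper3.Thin
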