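import Pool.Agent.Helper3.ThinSums

set_option autoImplicit false
set_option linter.unusedSectionVars false

namespace Pool.Agent.Helper3.Thin

open Finset

variable {q : ℕ → ℕ} [hqp : ∀ k, Fact (q k).Prime] {Γ : ∀ k, Finset (ZMod (q k) × ZMod (q k))}

/-- All the shifts up to scale `K`. -/
abbrev Om (q : ℕ → ℕ) (K : ℕ) := (c : Cell q K) → Shift q c

/-- The shifts are fine for top scale `k` and targets `nn`. -/
def Fine (Γ : ∀ k, Finset (ZMod (q k) × ZMod (q k))) {K : ℕ} (k : Fin K) (nn : Fin K → ℕ)
    (M h : ℕ) (τ : Om q K) : Prop :=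
  ∀ X ⊆ edges q Γ k nn, (∀ e ∈ X, ∀ c, τ c ∈ boxE Γ k nn e c) →
    (∀ e ∈ X, ∀ e' ∈ X, nn e.1 - e.2 = nn e'.1 - e'.2 → e = e') → X.card ≤ M + 4 * h * M

lemma card_lt_cells (hA : Adm q Γ) {K : ℕ} (k : Fin K) :
    (univ.filter (fun c : Cell q K => c.1 < k)).card ≤ q k ^ 2 := by
  classical
  have h1 : univ.filter (fun c : Cell q K => c.1 < k) =
      (univ.filter (fun j : Fin K => j < k)).sigma (fun _ => univ) := by
    ext c
    rw [mem_filter, mem_sigma, mem_filter]
    simp
  rw [h1, card_sigma]
  have h2 : ∀ j ∈ univ.filter (fun j : Fin K => j < k),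
      (univ : Finset (ZMod (q j) × ZMod (q j))).card ≤ q k * q j := by
    intro j hj
    rw [mem_filter] at hj
    rw [card_univ, Fintype.card_prod, ZMod.card]
    exact Nat.mul_le_mul_right _ (hA.lt (j := j) (k := k) hj.2).le
  refine (sum_le_sum h2).trans ?_
  rw [← mul_sum, sum_fin_lt k (fun i => q i), sq]
  exact Nat.mul_le_mul_left _ (hA.sum_le k)

lemma card_eq_cells {K : ℕ} (k : Fin K) :
    (univ.filter (fun c : Cell q K => c.1 = k)).card ≤ q k ^ 2 := by
  classical
  have h1 : univ.filter (fun c : Cell q K => c.1 = k) =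
      ({k} : Finset (Fin K)).sigma (fun _ => univ) := by
    ext c
    rw [mem_filter, mem_sigma, mem_singleton]
    simp
  rw [h1, card_sigma, sum_singleton, card_univ, Fintype.card_prod, ZMod.card, sq]

theorem bad_count (hA : Adm q Γ) {K : ℕ} (k : Fin K) (nn : Fin K → ℕ) (M h : ℕ)
    (Bad : Finset (Om q K)) (hBad : ∀ τ ∈ Bad, ¬ Fine Γ k nn M h τ) :
    (Bad.card : ℝ) ≤ (Fintype.card (Om q K) : ℝ) *
      ((1 + 2 * (q k : ℝ) ^ 2) * ((243 : ℝ) ^ M / (M.factorial : ℝ))
        + (100000 / (q k : ℝ)) ^ h) := by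
  classical
  set E := edges q Γ k nn with hE
  have hk := qpos (q := q) k
  have hM0 : (0 : ℝ) < (M.factorial : ℝ) := by exact_mod_cast M.factorial_pos
  have hh0 : (1 : ℝ) ≤ (h.factorial : ℝ) := by exact_mod_cast h.factorial_pos
  have hcard0 : (0 : ℝ) ≤ (Fintype.card (Om q K) : ℝ) := by positivity
  -- distinctness of cells
  have hup_ne : ∀ a ∈ E, ∀ b ∈ E, lo q a = lo q b → a ≠ b → up q k nn a ≠ up q k nn b := by
    rintro ⟨j, a⟩ ha ⟨j', a'⟩ hb hlo hne hup
    rw [hE, mem_edges] at ha hb
    have hj : j = j' := congrArg Sigma.fst hlo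
    subst hj
    apply hne
    have e1 : dig (q j) a = dig (q j) a' := eq_of_heq (Sigma.mk.inj_iff.1 hlo).2
    have e2 : dig (q k) (nn j - a) = dig (q k) (nn j - a') :=
      eq_of_heq (Sigma.mk.inj_iff.1 hup).2
    exact congrArg (fun x => (⟨j, x⟩ : (_ : Fin K) × ℕ)) (edge_unique hA ha.1 ha.2 hb.2 e1 e2)
  have hboxE : ∀ e ∈ E, ∀ c : Cell q K, c ∉ cells (lo q) (up q k nn) e →
      boxE Γ k nn e c = univ := by
    intro e _ c hc
    unfold cells at hc
    rw [mem_insert, mem_singleton, not_or] at hc
    unfold boxE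
    rw [boxLo_univ e c hc.1, boxUp_univ k nn e c hc.2, inter_self]
  -- Bad1
  set B1 : Finset (Om q K) := univ.filter (fun τ => ∃ T ⊆ E, T.card = M ∧
    (∀ a ∈ T, ∀ b ∈ T, a ≠ b → Disjoint (cells (lo q) (up q k nn) a) (cells (lo q) (up q k nn) b))
    ∧ ∀ a ∈ T, ∀ c, τ c ∈ boxE Γ k nn a c) with hB1
  have c1 : (B1.card : ℝ) * (M.factorial : ℝ) ≤ 243 ^ M * (Fintype.card (Om q K) : ℝ) := by
    refine box_tuples E (fun e => boxE Γ k nn e) (cells (lo q) (up q k nn))
      (fun e => 3 / (q e.1 : ℝ) * (3 / (q k : ℝ))) 243 hboxE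
      (fun e he => dens_boxE hA k nn e (mem_edges.1 he).1) (W1_le hA k nn) M B1 ?_
    intro τ hτ
    rw [hB1, mem_filter] at hτ
    exact hτ.2
  -- Bad2
  set B2 : Finset (Om q K) := univ.filter (fun τ => ∃ C ⊆ cherries q Γ k nn, C.card = h ∧
    (∀ a ∈ C, ∀ b ∈ C, a ≠ b → Disjoint (cells2 (lo q) (up q k nn) a)
      (cells2 (lo q) (up q k nn) b))
    ∧ ∀ a ∈ C, ∀ c, τ c ∈ boxP Γ k nn a c) with hB2
  have c2 : (B2.card : ℝ) * (h.factorial : ℝ) ≤
      (100000 / (q k : ℝ)) ^ h * (Fintype.card (Om q K) : ℝ) := by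
    refine box_tuples (cherries q Γ k nn) (fun p => boxP Γ k nn p) (cells2 (lo q) (up q k nn))
      (wch q k) (100000 / (q k : ℝ)) ?_ (fun p hp => dens_le_wch hA k nn p hp) (W2_le hA k nn) h
      B2 ?_
    · intro p hp c hc
      unfold cherries at hp
      rw [mem_filter, mem_product] at hp
      unfold cells2 at hc
      rw [mem_union, not_or] at hc
      unfold boxP
      rw [hboxE _ hp.1.1 c hc.1, hboxE _ hp.1.2 c hc.2, inter_self]
    · intro τ hτ
      rw [hB2, mem_filter] at hτ
      exact hτ.2
  -- Bad3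
  set B3 : Cell q K → Finset (Om q K) := fun c => univ.filter (fun τ =>
    ∃ T ⊆ E.filter (fun e => lo q e = c), T.card = M ∧ ∀ a ∈ T, ∀ c, τ c ∈ boxUp Γ k nn a c)
    with hB3
  have c3 : ∀ c : Cell q K, c.1 < k →
      ((B3 c).card : ℝ) * (M.factorial : ℝ) ≤ 243 ^ M * (Fintype.card (Om q K) : ℝ) := by
    intro c hc
    have := box_tuples (E.filter (fun e => lo q e = c)) (fun e => boxUp Γ k nn e)
      (fun e => {up q k nn e}) (fun e => 3 / (q k : ℝ)) 27
      (fun e _ c' hc' => boxUp_univ k nn e c' (by simpa using hc'))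
      (fun e _ => dens_boxUp hA k nn e) (W3_le hA k nn c hc) M (B3 c) (by
        intro τ hτ
        rw [hB3] at hτ
        simp only at hτ
        rw [mem_filter] at hτ
        obtain ⟨_, T, hT, hTc, hTb⟩ := hτ
        refine ⟨T, hT, hTc, ?_, hTb⟩
        intro a ha b hb hab
        have ha' := mem_filter.1 (hT ha)
        have hb' := mem_filter.1 (hT hb)
        rw [disjoint_singleton]
        exact hup_ne a ha'.1 b hb'.1 (by rw [ha'.2, hb'.2]) hab)
    refine this.trans ?_
    apply mul_le_mul_of_nonneg_right _ hcard0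
    exact pow_le_pow_left₀ (by norm_num) (by norm_num) M
  -- Bad4
  set B4 : Cell q K → Finset (Om q K) := fun c => univ.filter (fun τ =>
    ∃ T ⊆ E.filter (fun e => up q k nn e = c), T.card = M ∧ ∀ a ∈ T, ∀ c, τ c ∈ boxLo Γ a c)
    with hB4
  have c4 : ∀ c : Cell q K,
      ((B4 c).card : ℝ) * (M.factorial : ℝ) ≤ 243 ^ M * (Fintype.card (Om q K) : ℝ) := by
    intro c
    have := box_tuples (E.filter (fun e => up q k nn e = c)) (fun e => boxLo Γ e)
      (fun e => {lo q e}) (fun e => 3 / (q e.1 : ℝ)) 28
      (fun e _ c' hc' => boxLo_univ e c' (by simpa using hc'))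
      (fun e _ => dens_boxLo hA e) (W4_le hA k nn c) M (B4 c) (by
        intro τ hτ
        rw [hB4] at hτ
        simp only at hτ
        rw [mem_filter] at hτ
        obtain ⟨_, T, hT, hTc, hTb⟩ := hτ
        refine ⟨T, hT, hTc, ?_, hTb⟩
        intro a ha b hb hab
        have ha' := mem_filter.1 (hT ha)
        have hb' := mem_filter.1 (hT hb)
        rw [disjoint_singleton]
        intro hlo
        exact hup_ne a ha'.1 b hb'.1 hlo hab (by rw [ha'.2, hb'.2]))
    refine this.trans ?_
    apply mul_le_mul_of_nonneg_right _ hcard0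
    exact pow_le_pow_left₀ (by norm_num) (by norm_num) M
  -- covering
  have hcover : Bad ⊆ B1 ∪ B2 ∪ ((univ.filter (fun c : Cell q K => c.1 < k)).biUnion B3 ∪
      (univ.filter (fun c : Cell q K => c.1 = k)).biUnion B4) := by
    intro τ hτ
    by_contra hcon
    rw [mem_union, mem_union, mem_union, not_or, not_or, not_or] at hcon
    obtain ⟨⟨n1, n2⟩, n3, n4⟩ := hcon
    apply hBad τ hτ
    intro X hXE hXp hXinj
    apply graph_bound X (lo q) (up q k nn) M h M
    · intro T hTX hTc
      by_contra hno
      push Not at hno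
      apply n1
      rw [hB1, mem_filter]
      exact ⟨mem_univ _, T, hTX.trans hXE, hTc, hno, fun a ha => hXp a (hTX ha)⟩
    · intro C hC hCc
      by_contra hno
      push Not at hno
      apply n2
      rw [hB2, mem_filter]
      refine ⟨mem_univ _, C, ?_, hCc, hno, ?_⟩
      · intro p hp
        obtain ⟨p1, p2, p3, p4⟩ := hC p hp
        have p1E := hXE p1
        have p2E := hXE p2
        unfold cherries
        rw [mem_filter, mem_product]
        refine ⟨⟨p1E, p2E⟩, ?_⟩
        rw [not_disjoint_iff] at p4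
        obtain ⟨c, hc1, hc2⟩ := p4
        unfold cells at hc1 hc2
        rw [mem_insert, mem_singleton] at hc1 hc2
        have l1 := (mem_edges.1 p1E).1
        have l2 := (mem_edges.1 p2E).1
        rcases hc1 with hc1 | hc1 <;> rcases hc2 with hc2 | hc2
        · left
          have hlo : lo q p.1 = lo q p.2 := by rw [← hc1, ← hc2]
          exact ⟨hlo, p3, hup_ne _ p1E _ p2E hlo p3⟩
        · exfalso
          exact lo_ne_up (q := q) (k := k) (nn := nn) (e' := p.2) l1 (by rw [← hc1, ← hc2])
        · exfalso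
          exact lo_ne_up (q := q) (k := k) (nn := nn) (e' := p.1) l2 (by rw [← hc1, ← hc2])
        · right
          have hup : up q k nn p.1 = up q k nn p.2 := by rw [← hc1, ← hc2]
          refine ⟨hup, fun hb => p3 (hXinj _ p1 _ p2 hb), ?_⟩
          intro hlo
          exact hup_ne _ p1E _ p2E hlo p3 hup
      · intro p hp c
        obtain ⟨p1, p2, p3, p4⟩ := hC p hp
        unfold boxP
        rw [mem_inter]
        exact ⟨hXp _ p1 c, hXp _ p2 c⟩
    · intro c
      by_contra hbig
      push Not at hbig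
      obtain ⟨T, hT, hTc⟩ := exists_subset_card_eq hbig.le
      have hTX : ∀ e ∈ T, e ∈ X ∧ (c = lo q e ∨ c = up q k nn e) := by
        intro e he
        have := mem_filter.1 (hT he)
        unfold cells at this
        rw [mem_insert, mem_singleton] at this
        exact this
      rcases lt_trichotomy c.1 k with hck | hck | hck
      · apply n3
        rw [mem_biUnion]
        refine ⟨c, by rw [mem_filter]; exact ⟨mem_univ _, hck⟩, ?_⟩
        rw [hB3]
        simp only
        rw [mem_filter]
        refine ⟨mem_univ _, T, ?_, hTc, ?_⟩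
        · intro e he
          rw [mem_filter]
          obtain ⟨heX, hce⟩ := hTX e he
          refine ⟨hXE heX, ?_⟩
          rcases hce with hce | hce
          · exact hce.symm
          · exfalso
            rw [hce] at hck
            exact lt_irrefl _ hck
        · intro e he c'
          have := hXp e (hTX e he).1 c'
          unfold boxE at this
          rw [mem_inter] at this
          exact this.2
      · apply n4
        rw [mem_biUnion]
        refine ⟨c, by rw [mem_filter]; exact ⟨mem_univ _, hck⟩, ?_⟩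
        rw [hB4]
        simp only
        rw [mem_filter]
        refine ⟨mem_univ _, T, ?_, hTc, ?_⟩
        · intro e he
          rw [mem_filter]
          obtain ⟨heX, hce⟩ := hTX e he
          refine ⟨hXE heX, ?_⟩
          rcases hce with hce | hce
          · exfalso
            have l1 := (mem_edges.1 (hXE heX)).1
            rw [hce] at hck
            exact absurd hck (ne_of_lt l1)
          · exact hce.symm
        · intro e he c'
          have := hXp e (hTX e he).1 c'
          unfold boxE at this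
          rw [mem_inter] at this
          exact this.1
      · -- no edges
        have hTne : T.card = 0 := by
          rw [card_eq_zero, eq_empty_iff_forall_notMem]
          intro e he
          obtain ⟨heX, hce⟩ := hTX e he
          have l1 := (mem_edges.1 (hXE heX)).1
          rcases hce with hce | hce
          · rw [hce] at hck
            exact absurd (lt_trans hck l1) (lt_irrefl _)
          · rw [hce] at hck
            exact lt_irrefl _ hck
        have : M < (X.filter (fun e => c ∈ cells (lo q) (up q k nn) e)).card := hbig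
        have hne : (X.filter (fun e => c ∈ cells (lo q) (up q k nn) e)).Nonempty := by
          rw [← card_pos]
          omega
        obtain ⟨e, he⟩ := hne
        rw [mem_filter] at he
        unfold cells at he
        rw [mem_insert, mem_singleton] at he
        have l1 := (mem_edges.1 (hXE he.1)).1
        rcases he.2 with hce | hce
        · rw [hce] at hck
          exact absurd (lt_trans hck l1) (lt_irrefl _)
        · rw [hce] at hck
          exact lt_irrefl _ hck
  -- counting
  set P : ℝ := (243 : ℝ) ^ M / (M.factorial : ℝ) with hP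
  have hP0 : 0 ≤ P := by positivity
  have d1 : (B1.card : ℝ) ≤ P * (Fintype.card (Om q K) : ℝ) := by
    rw [hP, div_mul_eq_mul_div, le_div_iff₀ hM0]
    exact c1
  have d2 : (B2.card : ℝ) ≤ (100000 / (q k : ℝ)) ^ h * (Fintype.card (Om q K) : ℝ) := by
    calc (B2.card : ℝ) = (B2.card : ℝ) * 1 := by ring
      _ ≤ (B2.card : ℝ) * (h.factorial : ℝ) := mul_le_mul_of_nonneg_left hh0 (by positivity)
      _ ≤ _ := c2
  have d3 : ((((univ.filter (fun c : Cell q K => c.1 < k)).biUnion B3).card : ℕ) : ℝ) ≤
      (q k : ℝ) ^ 2 * (P * (Fintype.card (Om q K) : ℝ)) := by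
    calc ((((univ.filter (fun c : Cell q K => c.1 < k)).biUnion B3).card : ℕ) : ℝ)
        ≤ ((∑ c ∈ univ.filter (fun c : Cell q K => c.1 < k), (B3 c).card : ℕ) : ℝ) := by
          exact_mod_cast card_biUnion_le
      _ = ∑ c ∈ univ.filter (fun c : Cell q K => c.1 < k), ((B3 c).card : ℝ) := by push_cast; rfl
      _ ≤ ∑ c ∈ univ.filter (fun c : Cell q K => c.1 < k), P * (Fintype.card (Om q K) : ℝ) := by
          refine sum_le_sum (fun c hc => ?_)
          rw [mem_filter] at hc
          rw [hP, div_mul_eq_mul_div, le_div_iff₀ hM0]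
          exact c3 c hc.2
      _ = ((univ.filter (fun c : Cell q K => c.1 < k)).card : ℝ) *
            (P * (Fintype.card (Om q K) : ℝ)) := by rw [sum_const, nsmul_eq_mul]
      _ ≤ _ := by
          apply mul_le_mul_of_nonneg_right _ (by positivity)
          exact_mod_cast card_lt_cells hA k
  have d4 : ((((univ.filter (fun c : Cell q K => c.1 = k)).biUnion B4).card : ℕ) : ℝ) ≤
      (q k : ℝ) ^ 2 * (P * (Fintype.card (Om q K) : ℝ)) := by
    calc ((((univ.filter (fun c : Cell q K => c.1 = k)).biUnion B4).card : ℕ) : ℝ)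
        ≤ ((∑ c ∈ univ.filter (fun c : Cell q K => c.1 = k), (B4 c).card : ℕ) : ℝ) := by
          exact_mod_cast card_biUnion_le
      _ = ∑ c ∈ univ.filter (fun c : Cell q K => c.1 = k), ((B4 c).card : ℝ) := by push_cast; rfl
      _ ≤ ∑ c ∈ univ.filter (fun c : Cell q K => c.1 = k), P * (Fintype.card (Om q K) : ℝ) := by
          refine sum_le_sum (fun c hc => ?_)
          rw [hP, div_mul_eq_mul_div, le_div_iff₀ hM0]
          exact c4 c
      _ = ((univ.filter (fun c : Cell q K => c.1 = k)).card : ℝ) *
            (P * (Fintype.card (Om q K) : ℝ)) := by rw [sum_const, nsmul_eq_mul]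
      _ ≤ _ := by
          apply mul_le_mul_of_nonneg_right _ (by positivity)
          exact_mod_cast card_eq_cells k
  have htot : (Bad.card : ℝ) ≤ (B1.card : ℝ) + (B2.card : ℝ) +
      (((((univ.filter (fun c : Cell q K => c.1 < k)).biUnion B3).card : ℕ) : ℝ) +
      ((((univ.filter (fun c : Cell q K => c.1 = k)).biUnion B4).card : ℕ) : ℝ)) := by
    have e1 := card_le_card hcover
    have e2 := card_union_le (B1 ∪ B2) ((univ.filter (fun c : Cell q K => c.1 < k)).biUnion B3 ∪
      (univ.filter (fun c : Cell q K => c.1 = k)).biUnion B4)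
    have e3 := card_union_le B1 B2
    have e4 := card_union_le ((univ.filter (fun c : Cell q K => c.1 < k)).biUnion B3)
      ((univ.filter (fun c : Cell q K => c.1 = k)).biUnion B4)
    have : Bad.card ≤ B1.card + B2.card +
      (((univ.filter (fun c : Cell q K => c.1 < k)).biUnion B3).card +
      ((univ.filter (fun c : Cell q K => c.1 = k)).biUnion B4).card) := by omega
    exact_mod_cast this
  calc (Bad.card : ℝ) ≤ _ := htot
    _ ≤ P * (Fintype.card (Om q K) : ℝ) +
        (100000 / (q k : ℝ)) ^ h * (Fintype.card (Om q K) : ℝ) +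
        ((q k : ℝ) ^ 2 * (P * (Fintype.card (Om q K) : ℝ)) +
         (q k : ℝ) ^ 2 * (P * (Fintype.card (Om q K) : ℝ))) :=
        add_le_add (add_le_add d1 d2) (add_le_add d3 d4)
    _ = _ := by ring

end Pool.Agent.Helper3.Thin
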