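import Pool.Agent.Helper3.ThinEdges

set_option autoImplicit false
set_option linter.unusedSectionVars false

namespace Pool.Agent.Helper3.Thin

open Finset

lemma card_sub_mem {A : Type*} [AddCommGroup A] [Fintype A] [DecidableEq A] (G : Finset A)
    (x : A) : (univ.filter (fun z => x - z ∈ G)).card ≤ G.card := by
  refine card_le_card_of_injOn (fun z => x - z) ?_ ?_
  · intro z hz
    simp only [coe_filter, mem_univ, true_and, Set.mem_ofPred_eq] at hz
    exact hz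
  · intro z _ z' _ h
    simp only at h
    exact sub_right_injective h

lemma card_sub_mem2 {F : Type*} [Field F] [Fintype F] [DecidableEq F] {G : Finset (F × F)}
    (hG : GoodSet G) (x x' : F × F) (hx : x ≠ x') :
    (univ.filter (fun z => x - z ∈ G ∧ x' - z ∈ G)).card ≤ 18 := by
  refine le_trans ?_ (hG.diff_le (x - x') (sub_ne_zero.2 hx))
  refine card_le_card_of_injOn (fun z => (x - z, x' - z)) ?_ ?_
  · intro z hz
    simp only [coe_filter, mem_univ, true_and, Set.mem_ofPred_eq] at hz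
    simp only [coe_filter, mem_product, Set.mem_ofPred_eq]
    refine ⟨hz, by abel⟩
  · intro z _ z' _ h
    simp only [Prod.mk.injEq] at h
    exact sub_right_injective h.1

lemma high_ne {q x y : ℕ} (hq : 0 < q) (hxy : x ≠ y) (hx : x < q ^ 4) (hy : y < q ^ 4)
    (h : dig q x = dig q y) : dig q (x / q ^ 2) ≠ dig q (y / q ^ 2) := by
  intro h2
  rw [dig_eq_iff] at h h2
  have e : q ^ 4 = q ^ 2 * q ^ 2 := by ring
  have h3 : x / q ^ 2 < q ^ 2 := Nat.div_lt_of_lt_mul (by omega)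
  have h4 : y / q ^ 2 < q ^ 2 := Nat.div_lt_of_lt_mul (by omega)
  rw [Nat.mod_eq_of_lt h3, Nat.mod_eq_of_lt h4] at h2
  apply hxy
  rw [← Nat.div_add_mod x (q ^ 2), ← Nat.div_add_mod y (q ^ 2), h, h2]

variable {q : ℕ → ℕ} [hqp : ∀ k, Fact (q k).Prime] {Γ : ∀ k, Finset (ZMod (q k) × ZMod (q k))}

/-- Shifts attached to a cell. -/
abbrev Shift (q : ℕ → ℕ) {K : ℕ} (c : Cell q K) : Type := ZMod (q c.1) × ZMod (q c.1)

/-- constraint imposed on the lower cell -/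
def boxLo (Γ : ∀ k, Finset (ZMod (q k) × ZMod (q k))) {K : ℕ} (e : (_ : Fin K) × ℕ) :
    (c : Cell q K) → Finset (Shift q c) := fun c =>
  univ.filter (fun z => (c.1 = e.1 ∧ c.2 = dig (q c.1) e.2) →
    dig (q c.1) (e.2 / (q c.1) ^ 2) - z ∈ Γ c.1)

/-- constraint imposed on the upper cell -/
def boxUp (Γ : ∀ k, Finset (ZMod (q k) × ZMod (q k))) {K : ℕ} (k : Fin K) (nn : Fin K → ℕ)
    (e : (_ : Fin K) × ℕ) : (c : Cell q K) → Finset (Shift q c) := fun c =>
  univ.filter (fun z => (c.1 = k ∧ c.2 = dig (q c.1) (nn e.1 - e.2)) →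
    dig (q c.1) ((nn e.1 - e.2) / (q c.1) ^ 2) - z ∈ Γ c.1)

/-- both constraints -/
def boxE (Γ : ∀ k, Finset (ZMod (q k) × ZMod (q k))) {K : ℕ} (k : Fin K) (nn : Fin K → ℕ)
    (e : (_ : Fin K) × ℕ) : (c : Cell q K) → Finset (Shift q c) := fun c =>
  boxLo Γ e c ∩ boxUp Γ k nn e c

/-- constraints of a pair of edges -/
def boxP (Γ : ∀ k, Finset (ZMod (q k) × ZMod (q k))) {K : ℕ} (k : Fin K) (nn : Fin K → ℕ)
    (p : ((_ : Fin K) × ℕ) × ((_ : Fin K) × ℕ)) : (c : Cell q K) → Finset (Shift q c) := fun c =>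
  boxE Γ k nn p.1 c ∩ boxE Γ k nn p.2 c

lemma boxLo_univ {K : ℕ} (e : (_ : Fin K) × ℕ) (c : Cell q K) (hc : c ≠ lo q e) :
    boxLo Γ e c = univ := by
  unfold boxLo
  rw [filter_eq_self]
  rintro z _ ⟨h1, h2⟩
  exfalso
  apply hc
  obtain ⟨i, u⟩ := c
  simp only at h1 h2
  subst h1
  subst h2
  rfl

lemma boxUp_univ {K : ℕ} (k : Fin K) (nn : Fin K → ℕ) (e : (_ : Fin K) × ℕ) (c : Cell q K)
    (hc : c ≠ up q k nn e) : boxUp Γ k nn e c = univ := by
  unfold boxUp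
  rw [filter_eq_self]
  rintro z _ ⟨h1, h2⟩
  exfalso
  apply hc
  obtain ⟨i, u⟩ := c
  simp only at h1 h2
  subst h1
  subst h2
  rfl

lemma card_shift {K : ℕ} (c : Cell q K) : (Fintype.card (Shift q c) : ℝ) = (q c.1 : ℝ) ^ 2 := by
  rw [Fintype.card_prod, ZMod.card]
  push_cast
  ring

lemma ratio_le {K : ℕ} (h : Adm q Γ) (c : Cell q K) (B : Finset (Shift q c))
    (x : ZMod (q c.1) × ZMod (q c.1)) (hB : ∀ z ∈ B, x - z ∈ Γ c.1) :
    ((B.card : ℝ)) / (Fintype.card (Shift q c) : ℝ) ≤ 3 / (q c.1 : ℝ) := by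
  have h1 : B.card ≤ 3 * q c.1 := by
    have h2 : B ⊆ univ.filter (fun z => x - z ∈ Γ c.1) := by
      intro z hz
      rw [mem_filter]
      exact ⟨mem_univ _, hB z hz⟩
    have h3 := (h.good c.1).card_le
    rw [ZMod.card] at h3
    exact ((card_le_card h2).trans (card_sub_mem _ _)).trans h3
  have hq : (0 : ℝ) < q c.1 := by exact_mod_cast (hqp c.1).out.pos
  rw [card_shift, div_le_div_iff₀ (by positivity) hq]
  have h4 : (B.card : ℝ) ≤ 3 * q c.1 := by exact_mod_cast h1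
  nlinarith

lemma ratio_le2 {K : ℕ} (h : Adm q Γ) (c : Cell q K) (B : Finset (Shift q c))
    (x x' : ZMod (q c.1) × ZMod (q c.1)) (hx : x ≠ x')
    (hB : ∀ z ∈ B, x - z ∈ Γ c.1 ∧ x' - z ∈ Γ c.1) :
    ((B.card : ℝ)) / (Fintype.card (Shift q c) : ℝ) ≤ 18 / (q c.1 : ℝ) ^ 2 := by
  have h1 : B.card ≤ 18 := by
    have h2 : B ⊆ univ.filter (fun z => x - z ∈ Γ c.1 ∧ x' - z ∈ Γ c.1) := by
      intro z hz
      rw [mem_filter]
      exact ⟨mem_univ _, hB z hz⟩
    exact (card_le_card h2).trans (card_sub_mem2 (h.good c.1) _ _ hx)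
  rw [card_shift]
  have h4 : (B.card : ℝ) ≤ 18 := by exact_mod_cast h1
  gcongr

lemma ratio_boxLo {K : ℕ} (h : Adm q Γ) (e : (_ : Fin K) × ℕ)
    (B : Finset (Shift q (lo q e))) (hB : B ⊆ boxLo Γ e (lo q e)) :
    (B.card : ℝ) / (Fintype.card (Shift q (lo q e)) : ℝ) ≤ 3 / (q e.1 : ℝ) := by
  refine ratio_le h (lo q e) B (dig (q e.1) (e.2 / (q e.1) ^ 2)) ?_
  intro z hz
  have := hB hz
  unfold boxLo at this
  rw [mem_filter] at this
  exact this.2 ⟨rfl, rfl⟩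

lemma ratio_boxUp {K : ℕ} (h : Adm q Γ) (k : Fin K) (nn : Fin K → ℕ) (e : (_ : Fin K) × ℕ)
    (B : Finset (Shift q (up q k nn e))) (hB : B ⊆ boxUp Γ k nn e (up q k nn e)) :
    (B.card : ℝ) / (Fintype.card (Shift q (up q k nn e)) : ℝ) ≤ 3 / (q k : ℝ) := by
  refine ratio_le h (up q k nn e) B (dig (q k) ((nn e.1 - e.2) / (q k) ^ 2)) ?_
  intro z hz
  have := hB hz
  unfold boxUp at this
  rw [mem_filter] at this
  exact this.2 ⟨rfl, rfl⟩

lemma dens_boxLo {K : ℕ} (h : Adm q Γ) (e : (_ : Fin K) × ℕ) :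
    dens (boxLo Γ e) ≤ 3 / (q e.1 : ℝ) := by
  refine (dens_le_prod _ {lo q e}).trans ?_
  rw [prod_singleton]
  exact ratio_boxLo h e _ (Subset.refl _)

lemma dens_boxUp {K : ℕ} (h : Adm q Γ) (k : Fin K) (nn : Fin K → ℕ) (e : (_ : Fin K) × ℕ) :
    dens (boxUp Γ k nn e) ≤ 3 / (q k : ℝ) := by
  refine (dens_le_prod _ {up q k nn e}).trans ?_
  rw [prod_singleton]
  exact ratio_boxUp h k nn e _ (Subset.refl _)

lemma lo_ne_up {K : ℕ} {k : Fin K} {nn : Fin K → ℕ} {e e' : (_ : Fin K) × ℕ} (he : e.1 < k) :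
    lo q e ≠ up q k nn e' := by
  intro h
  have := congrArg Sigma.fst h
  simp only [lo, up] at this
  exact absurd this (ne_of_lt he)

lemma dens_boxE {K : ℕ} (h : Adm q Γ) (k : Fin K) (nn : Fin K → ℕ) (e : (_ : Fin K) × ℕ)
    (he : e.1 < k) : dens (boxE Γ k nn e) ≤ 3 / (q e.1 : ℝ) * (3 / (q k : ℝ)) := by
  refine (dens_le_prod _ {lo q e, up q k nn e}).trans ?_
  rw [prod_pair (lo_ne_up he)]
  have h1 := ratio_boxLo h e (boxE Γ k nn e (lo q e)) inter_subset_left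
  have h2 := ratio_boxUp h k nn e (boxE Γ k nn e (up q k nn e)) inter_subset_right
  exact mul_le_mul h1 h2 (by positivity) (by positivity)

lemma dens_boxP_lo {K : ℕ} (h : Adm q Γ) (k : Fin K) (nn : Fin K → ℕ)
    (e e' : (_ : Fin K) × ℕ) (he : e.1 < k) (hlo : lo q e = lo q e') (hne : e ≠ e')
    (hup : up q k nn e ≠ up q k nn e') (hlt : e.2 < q e.1 ^ 4) (hlt' : e'.2 < q e'.1 ^ 4) :
    dens (boxP Γ k nn (e, e')) ≤ 18 / (q e.1 : ℝ) ^ 2 * (3 / (q k : ℝ) * (3 / (q k : ℝ))) := by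
  refine (dens_le_prod _ {lo q e, up q k nn e, up q k nn e'}).trans ?_
  have hnm : lo q e ∉ ({up q k nn e, up q k nn e'} : Finset (Cell q K)) := by
    rw [mem_insert, mem_singleton, not_or]
    exact ⟨lo_ne_up he, lo_ne_up he⟩
  rw [prod_insert hnm, prod_pair hup]
  have h2 := ratio_boxUp h k nn e (boxP Γ k nn (e, e') (up q k nn e))
    (inter_subset_left.trans inter_subset_right)
  have h3 := ratio_boxUp h k nn e' (boxP Γ k nn (e, e') (up q k nn e'))
    (inter_subset_right.trans inter_subset_right)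
  have h1 : (((boxP Γ k nn (e, e') (lo q e)).card : ℝ)) /
      (Fintype.card (Shift q (lo q e)) : ℝ) ≤ 18 / (q e.1 : ℝ) ^ 2 := by
    obtain ⟨j, a⟩ := e
    obtain ⟨j', a'⟩ := e'
    have hj : j = j' := congrArg Sigma.fst hlo
    subst hj
    have hdig : dig (q j) a = dig (q j) a' := by
      have := (Sigma.mk.inj_iff.1 hlo).2
      exact eq_of_heq this
    have haa : a ≠ a' := by
      rintro rfl
      exact hne rfl
    refine ratio_le2 h (lo q ⟨j, a⟩) _ (dig (q j) (a / (q j) ^ 2)) (dig (q j) (a' / (q j) ^ 2))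
      (high_ne (hqp j).out.pos haa hlt hlt' hdig) ?_
    intro z hz
    unfold boxP boxE at hz
    rw [mem_inter, mem_inter, mem_inter] at hz
    have z1 := hz.1.1
    have z2 := hz.2.1
    unfold boxLo at z1 z2
    rw [mem_filter] at z1 z2
    exact ⟨z1.2 ⟨rfl, rfl⟩, z2.2 ⟨rfl, hdig⟩⟩
  exact mul_le_mul h1 (mul_le_mul h2 h3 (by positivity) (by positivity)) (by positivity)
    (by positivity)

lemma dens_boxP_up {K : ℕ} (h : Adm q Γ) (k : Fin K) (nn : Fin K → ℕ)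
    (e e' : (_ : Fin K) × ℕ) (he : e.1 < k) (he' : e'.1 < k)
    (hup : up q k nn e = up q k nn e') (hne : nn e.1 - e.2 ≠ nn e'.1 - e'.2)
    (hlo : lo q e ≠ lo q e') (hlt : nn e.1 - e.2 < q k ^ 4) (hlt' : nn e'.1 - e'.2 < q k ^ 4) :
    dens (boxP Γ k nn (e, e')) ≤
      18 / (q k : ℝ) ^ 2 * (3 / (q e.1 : ℝ) * (3 / (q e'.1 : ℝ))) := by
  refine (dens_le_prod _ {up q k nn e, lo q e, lo q e'}).trans ?_
  have hnm : up q k nn e ∉ ({lo q e, lo q e'} : Finset (Cell q K)) := by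
    rw [mem_insert, mem_singleton, not_or]
    exact ⟨(lo_ne_up he).symm, (lo_ne_up he').symm⟩
  rw [prod_insert hnm, prod_pair hlo]
  have h2 := ratio_boxLo h e (boxP Γ k nn (e, e') (lo q e))
    (inter_subset_left.trans inter_subset_left)
  have h3 := ratio_boxLo h e' (boxP Γ k nn (e, e') (lo q e'))
    (inter_subset_right.trans inter_subset_left)
  have h1 : (((boxP Γ k nn (e, e') (up q k nn e)).card : ℝ)) /
      (Fintype.card (Shift q (up q k nn e)) : ℝ) ≤ 18 / (q k : ℝ) ^ 2 := by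
    have hdig : dig (q k) (nn e.1 - e.2) = dig (q k) (nn e'.1 - e'.2) := by
      have := (Sigma.mk.inj_iff.1 hup).2
      exact eq_of_heq this
    refine ratio_le2 h (up q k nn e) _ (dig (q k) ((nn e.1 - e.2) / (q k) ^ 2))
      (dig (q k) ((nn e'.1 - e'.2) / (q k) ^ 2))
      (high_ne (hqp k).out.pos hne hlt hlt' hdig) ?_
    intro z hz
    unfold boxP boxE at hz
    rw [mem_inter, mem_inter, mem_inter] at hz
    have z1 := hz.1.2
    have z2 := hz.2.2
    unfold boxUp at z1 z2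
    rw [mem_filter] at z1 z2
    exact ⟨z1.2 ⟨rfl, rfl⟩, z2.2 ⟨rfl, hdig⟩⟩
  exact mul_le_mul h1 (mul_le_mul h2 h3 (by positivity) (by positivity)) (by positivity)
    (by positivity)

end Pool.Agent.Helper3.Thin
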