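import Pool.Agent.Helper3.ThinGamma

set_option autoImplicit false

namespace Pool.Agent.Helper3.Thin

open Finset

/-- The two lowest base-`q` digits of `a`, as residues (second digit, lowest digit). -/
def dig (q a : ℕ) : ZMod q × ZMod q := (((a / q : ℕ) : ZMod q), ((a : ℕ) : ZMod q))

lemma dig_eq_iff {q : ℕ} (a b : ℕ) : dig q a = dig q b ↔ a % (q ^ 2) = b % (q ^ 2) := by
  unfold dig
  rw [Prod.mk.injEq, ZMod.natCast_eq_natCast_iff', ZMod.natCast_eq_natCast_iff', sq]
  constructor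
  · rintro ⟨h1, h2⟩
    rw [Nat.mod_mul, Nat.mod_mul, h1, h2]
  · intro h
    constructor
    · rw [← Nat.mod_mul_right_div_self, ← Nat.mod_mul_right_div_self, h]
    · have := congrArg (fun x => x % q) h
      simpa [Nat.mod_mul_left_mod, Nat.mod_mul_right_mod] using this

lemma dig_add {q : ℕ} (hq : 0 < q) (a b : ℕ) :
    dig q a + dig q b = dig q (a + b) ∨ dig q a + dig q b = dig q (a + b) - (1, 0) := by
  unfold dig
  rw [Nat.add_div hq]
  split_ifs with h
  · right
    refine Prod.ext ?_ ?_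
    · simp
    · simp
  · left
    refine Prod.ext ?_ ?_
    · simp
    · simp

variable {q : ℕ} [Fact q.Prime] {G : Finset (ZMod q × ZMod q)}

lemma pair_count (hG : GoodSet G) (w : ZMod q × ZMod q) :
    ((G ×ˢ G).filter (fun p => p.1 + p.2 = w ∨ p.1 + p.2 = w - (1, 0))).card ≤ 36 := by
  rw [filter_or]
  refine (card_union_le _ _).trans ?_
  have h1 := hG.sum_le w
  have h2 := hG.sum_le (w - (1, 0))
  omega

lemma pairs_le (hG : GoodSet G) (s : ℕ) (S : Finset (ℕ × ℕ))
    (h1 : ∀ p ∈ S, p.1 + p.2 = s) (h2 : ∀ p ∈ S, dig q p.1 ∈ G ∧ dig q p.2 ∈ G)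
    (h3 : ∀ p ∈ S, ∀ p' ∈ S, dig q p.1 = dig q p'.1 → dig q p.2 = dig q p'.2 → p = p') :
    S.card ≤ 36 := by
  classical
  have hq : 0 < q := (Fact.out : q.Prime).pos
  refine le_trans ?_ (pair_count hG (dig q s))
  refine card_le_card_of_injOn (fun p => (dig q p.1, dig q p.2)) ?_ ?_
  · intro p hp
    have hp' : p ∈ S := hp
    simp only [coe_filter, Set.mem_ofPred_eq, mem_product]
    refine ⟨h2 p hp', ?_⟩
    rw [← h1 p hp']
    exact dig_add hq _ _
  · intro p hp p' hp' h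
    simp only [Prod.mk.injEq] at h
    exact h3 p hp p' hp' h.1 h.2

/-- Elements of an arithmetic progression whose complement digits lie in `G`. -/
lemma ap_bound (hG : GoodSet G) (n m L : ℕ) (hm : 0 < m) (T : Finset ℕ)
    (h1 : ∀ x ∈ T, x ≤ n) (h2 : ∀ x ∈ T, dig q (n - x) ∈ G)
    (h3 : ∀ x ∈ T, ∀ y ∈ T, x % m = y % m) (h4 : ∀ x ∈ T, ∀ y ∈ T, x ≤ y + m * L)
    (h5 : ∀ x ∈ T, ∀ y ∈ T, dig q (n - x) = dig q (n - y) → x = y) :
    T.card ^ 2 ≤ 36 * (2 * L + 1) := by
  classical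
  rcases T.eq_empty_or_nonempty with rfl | hne
  · simp
  set x0 := T.min' hne with hx0
  have hx0T : x0 ∈ T := min'_mem _ _
  have hrep : ∀ x ∈ T, ∃ t ≤ L, x = x0 + m * t := by
    intro x hx
    have hle : x0 ≤ x := min'_le _ _ hx
    obtain ⟨t, ht⟩ := (Nat.modEq_iff_dvd' hle).1 (h3 x0 hx0T x hx)
    refine ⟨t, ?_, by omega⟩
    have := h4 x hx x0 hx0T
    have h' : m * t ≤ m * L := by omega
    exact Nat.le_of_mul_le_mul_left h' hm
  have hfib := card_le_mul_card_image (f := fun p : ℕ × ℕ => p.1 + p.2) (T ×ˢ T) 36 (by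
    intro b _
    have : ((T ×ˢ T).filter (fun p => p.1 + p.2 = b)).card =
        (((T ×ˢ T).filter (fun p => p.1 + p.2 = b)).image
          (fun p => (n - p.1, n - p.2))).card := by
      rw [card_image_of_injOn]
      intro p hp p' hp' h
      simp only [coe_filter, Set.mem_ofPred_eq, mem_product] at hp hp'
      simp only [Prod.mk.injEq] at h
      have a1 := h1 _ hp.1.1
      have a2 := h1 _ hp.1.2
      have a3 := h1 _ hp'.1.1
      have a4 := h1 _ hp'.1.2
      exact Prod.ext (by omega) (by omega)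
    rw [this]
    apply pairs_le hG (2 * n - b)
    · intro p hp
      simp only [mem_image, mem_filter, mem_product] at hp
      obtain ⟨p', ⟨⟨ha, hb⟩, hc⟩, rfl⟩ := hp
      have a1 := h1 _ ha
      have a2 := h1 _ hb
      simp only
      omega
    · intro p hp
      simp only [mem_image, mem_filter, mem_product] at hp
      obtain ⟨p', ⟨⟨ha, hb⟩, hc⟩, rfl⟩ := hp
      exact ⟨h2 _ ha, h2 _ hb⟩
    · intro p hp p' hp' e1 e2
      simp only [mem_image, mem_filter, mem_product] at hp hp'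
      obtain ⟨r, ⟨⟨ha, hb⟩, hc⟩, rfl⟩ := hp
      obtain ⟨r', ⟨⟨ha', hb'⟩, hc'⟩, rfl⟩ := hp'
      have f1 := h5 _ ha _ ha' e1
      have f2 := h5 _ hb _ hb' e2
      rw [f1, f2])
  have himg : ((T ×ˢ T).image (fun p : ℕ × ℕ => p.1 + p.2)).card ≤ 2 * L + 1 := by
    have : (T ×ˢ T).image (fun p : ℕ × ℕ => p.1 + p.2) ⊆
        (range (2 * L + 1)).image (fun t => 2 * x0 + m * t) := by
      intro s hs
      simp only [mem_image, mem_product] at hs
      obtain ⟨p, ⟨ha, hb⟩, rfl⟩ := hs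
      obtain ⟨t, ht, e1⟩ := hrep _ ha
      obtain ⟨t', ht', e2⟩ := hrep _ hb
      rw [mem_image]
      refine ⟨t + t', by rw [mem_range]; omega, ?_⟩
      rw [e1, e2]
      ring
    refine (card_le_card this).trans ?_
    exact card_image_le.trans (by rw [card_range])
  rw [card_product] at hfib
  calc T.card ^ 2 = T.card * T.card := by ring
    _ ≤ 36 * _ := hfib
    _ ≤ 36 * (2 * L + 1) := Nat.mul_le_mul_left _ himg

end Pool.Agent.Helper3.Thin
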