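import Mathlib

set_option autoImplicit false

namespace Pool.Agent.Helper3.Thin

open Finset

/-- The two cells of an edge. -/
def cells {α κ : Type*} [DecidableEq κ] (lo up : α → κ) (e : α) : Finset κ := {lo e, up e}

/-- The cells of a pair of edges. -/
def cells2 {α κ : Type*} [DecidableEq κ] (lo up : α → κ) (p : α × α) : Finset κ :=
  cells lo up p.1 ∪ cells lo up p.2

lemma card_cells2_le {α κ : Type*} [DecidableEq κ] (lo up : α → κ) (p : α × α) :
    (cells2 lo up p).card ≤ 4 := by
  unfold cells2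
  refine (card_union_le _ _).trans ?_
  have h1 : (cells lo up p.1).card ≤ 2 := card_le_two
  have h2 : (cells lo up p.2).card ≤ 2 := card_le_two
  omega

/-- If a finite graph has no matching of size `M`, no `h` vertex-disjoint cherries and all
degrees at most `Δ`, then it has at most `M + 4 h Δ` edges. -/
theorem graph_bound {α κ : Type*} [DecidableEq α] [DecidableEq κ] (X : Finset α)
    (lo up : α → κ) (M h Δ : ℕ)
    (hM : ∀ T ⊆ X, T.card = M →
      ∃ a ∈ T, ∃ b ∈ T, a ≠ b ∧ ¬ Disjoint (cells lo up a) (cells lo up b))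
    (hh : ∀ C : Finset (α × α), (∀ p ∈ C, p.1 ∈ X ∧ p.2 ∈ X ∧ p.1 ≠ p.2 ∧
      ¬ Disjoint (cells lo up p.1) (cells lo up p.2)) → C.card = h →
      ∃ p ∈ C, ∃ p' ∈ C, p ≠ p' ∧ ¬ Disjoint (cells2 lo up p) (cells2 lo up p'))
    (hΔ : ∀ c, (X.filter (fun e => c ∈ cells lo up e)).card ≤ Δ) :
    X.card ≤ M + 4 * h * Δ := by
  classical
  set Ch : Finset (α × α) := (X ×ˢ X).filter
    (fun p => p.1 ≠ p.2 ∧ ¬ Disjoint (cells lo up p.1) (cells lo up p.2)) with hCh
  set Fam : Finset (Finset (α × α)) := Ch.powerset.filter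
    (fun C => ∀ p ∈ C, ∀ p' ∈ C, p ≠ p' → Disjoint (cells2 lo up p) (cells2 lo up p')) with hFam
  have hne : Fam.Nonempty := ⟨∅, by rw [hFam, mem_filter]; simp⟩
  obtain ⟨C, hC, hmax⟩ := exists_max_image Fam card hne
  rw [hFam, mem_filter, mem_powerset] at hC
  have hChmem : ∀ p, p ∈ Ch ↔ p.1 ∈ X ∧ p.2 ∈ X ∧ p.1 ≠ p.2 ∧
      ¬ Disjoint (cells lo up p.1) (cells lo up p.2) := by
    intro p
    rw [hCh, mem_filter, mem_product]
    tauto
  have hCcard : C.card < h := by
    by_contra hcon
    push Not at hcon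
    obtain ⟨C', hC'C, hC'⟩ := exists_subset_card_eq hcon
    obtain ⟨p, hp, p', hp', hne, hnd⟩ := hh C' (fun p hp => (hChmem p).1 (hC.1 (hC'C hp))) hC'
    exact hnd (hC.2 p (hC'C hp) p' (hC'C hp') hne)
  set V : Finset κ := C.biUnion (cells2 lo up) with hV
  have hVcard : V.card ≤ 4 * h := by
    calc V.card ≤ ∑ p ∈ C, (cells2 lo up p).card := card_biUnion_le
      _ ≤ ∑ p ∈ C, 4 := sum_le_sum (fun p _ => card_cells2_le lo up p)
      _ = C.card * 4 := by rw [sum_const, smul_eq_mul]
      _ ≤ 4 * h := by omega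
  have hX1 : (X.filter (fun e => ¬ Disjoint (cells lo up e) V)).card ≤ 4 * h * Δ := by
    have hsub : X.filter (fun e => ¬ Disjoint (cells lo up e) V) ⊆
        V.biUnion (fun c => X.filter (fun e => c ∈ cells lo up e)) := by
      intro e he
      rw [mem_filter, not_disjoint_iff] at he
      obtain ⟨heX, c, hc1, hc2⟩ := he
      rw [mem_biUnion]
      exact ⟨c, hc2, by rw [mem_filter]; exact ⟨heX, hc1⟩⟩
    calc _ ≤ _ := card_le_card hsub
      _ ≤ ∑ c ∈ V, (X.filter (fun e => c ∈ cells lo up e)).card := card_biUnion_le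
      _ ≤ ∑ c ∈ V, Δ := sum_le_sum (fun c _ => hΔ c)
      _ = V.card * Δ := by rw [sum_const, smul_eq_mul]
      _ ≤ _ := Nat.mul_le_mul_right _ hVcard
  have hX2 : (X.filter (fun e => Disjoint (cells lo up e) V)).card ≤ M := by
    by_contra hcon
    push Not at hcon
    obtain ⟨T, hT, hTc⟩ := exists_subset_card_eq hcon.le
    obtain ⟨a, ha, b, hb, hab, hnd⟩ := hM T (hT.trans (filter_subset _ _)) hTc
    have ha' := mem_filter.1 (hT ha)
    have hb' := mem_filter.1 (hT hb)
    have hdisj : ∀ p ∈ C, Disjoint (cells2 lo up (a, b)) (cells2 lo up p) := by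
      intro p hp
      have hpV : cells2 lo up p ⊆ V := subset_biUnion_of_mem (cells2 lo up) hp
      apply disjoint_of_subset_right hpV
      unfold cells2
      rw [disjoint_union_left]
      exact ⟨ha'.2, hb'.2⟩
    have hnotin : (a, b) ∉ C := by
      intro hin
      have h1 := hdisj (a, b) hin
      rw [disjoint_self_iff_empty] at h1
      have : lo a ∈ cells2 lo up (a, b) := by
        unfold cells2 cells
        simp
      rw [h1] at this
      exact notMem_empty _ this
    have hins : insert (a, b) C ∈ Fam := by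
      rw [hFam, mem_filter, mem_powerset]
      refine ⟨insert_subset ((hChmem _).2 ⟨ha'.1, hb'.1, hab, hnd⟩) hC.1, ?_⟩
      intro p hp p' hp' hne
      rw [mem_insert] at hp hp'
      rcases hp with rfl | hp <;> rcases hp' with rfl | hp'
      · exact absurd rfl hne
      · exact hdisj _ hp'
      · exact (hdisj _ hp).symm
      · exact hC.2 _ hp _ hp' hne
    have := hmax _ hins
    rw [card_insert_of_notMem hnotin] at this
    omega
  have hsplit := card_filter_add_card_filter_not (s := X) (fun e => Disjoint (cells lo up e) V)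
  omega

end Pool.Agent.Helper3.Thin
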