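import Mathlib

set_option autoImplicit false

namespace Pool.Agent.Helper3.Thin

open Finset

section Boxes

variable {ι : Type*} [Fintype ι] [DecidableEq ι] {Z : ι → Type*} [∀ i, Fintype (Z i)]
  [∀ i, DecidableEq (Z i)] [∀ i, Nonempty (Z i)]

/-- The density of a box in a finite product. -/
noncomputable def dens (B : (i : ι) → Finset (Z i)) : ℝ :=
  ∏ i, ((B i).card : ℝ) / (Fintype.card (Z i) : ℝ)

lemma dens_nonneg (B : (i : ι) → Finset (Z i)) : 0 ≤ dens B :=
  prod_nonneg (fun _ _ => by positivity)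

lemma card_box (B : (i : ι) → Finset (Z i)) :
    ((univ.filter (fun ω : (i : ι) → Z i => ∀ i, ω i ∈ B i)).card : ℝ)
      = dens B * (Fintype.card ((i : ι) → Z i) : ℝ) := by
  have h1 : univ.filter (fun ω : (i : ι) → Z i => ∀ i, ω i ∈ B i) = Fintype.piFinset B := by
    ext ω
    simp [Fintype.mem_piFinset]
  rw [h1, Fintype.card_piFinset, Fintype.card_pi, dens, prod_div_distrib]
  push_cast
  rw [div_mul_cancel₀]
  exact prod_ne_zero_iff.2 (fun i _ => by exact_mod_cast Fintype.card_ne_zero)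

/-- A box is no denser than the product of its densities over a set of coordinates. -/
lemma dens_le_prod (B : (i : ι) → Finset (Z i)) (S : Finset ι) :
    dens B ≤ ∏ i ∈ S, ((B i).card : ℝ) / (Fintype.card (Z i) : ℝ) := by
  unfold dens
  rw [← prod_mul_prod_compl S]
  have h1 : ∏ i ∈ Sᶜ, ((B i).card : ℝ) / (Fintype.card (Z i) : ℝ) ≤ 1 := by
    apply prod_le_one
    · intro i _
      positivity
    · intro i _
      apply div_le_one_of_le₀
      · exact_mod_cast card_le_univ _
      · positivity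
  have h2 : 0 ≤ ∏ i ∈ S, ((B i).card : ℝ) / (Fintype.card (Z i) : ℝ) :=
    prod_nonneg (fun _ _ => by positivity)
  calc _ ≤ (∏ i ∈ S, ((B i).card : ℝ) / (Fintype.card (Z i) : ℝ)) * 1 :=
        mul_le_mul_of_nonneg_left h1 h2
    _ = _ := mul_one _

/-- The box of points satisfying a tuple of box constraints. -/
def interBox {α : Type*} {h : ℕ} (B : α → (i : ι) → Finset (Z i)) (s : Fin h → α) :
    (i : ι) → Finset (Z i) :=
  fun c => univ.filter (fun z => ∀ i, z ∈ B (s i) c)

lemma dens_interBox {α : Type*} {h : ℕ} (B : α → (i : ι) → Finset (Z i)) (S : α → Finset ι)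
    (s : Fin h → α) (hS : ∀ j, ∀ i, i ∉ S (s j) → B (s j) i = univ)
    (hdis : ∀ i j, i ≠ j → Disjoint (S (s i)) (S (s j))) :
    dens (interBox B s) = ∏ j, dens (B (s j)) := by
  unfold dens
  rw [prod_comm]
  refine prod_congr rfl (fun c _ => ?_)
  have hZ : (Fintype.card (Z c) : ℝ) ≠ 0 := by exact_mod_cast Fintype.card_ne_zero
  by_cases hc : ∃ j, c ∈ S (s j)
  · obtain ⟨j0, hj0⟩ := hc
    have hother : ∀ j, j ≠ j0 → B (s j) c = univ := by
      intro j hj
      apply hS
      intro hcj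
      exact (disjoint_left.1 (hdis j j0 hj)) hcj hj0
    have h1 : interBox B s c = B (s j0) c := by
      unfold interBox
      ext z
      simp only [mem_filter, mem_univ, true_and]
      constructor
      · intro h; exact h j0
      · intro h j
        by_cases hj : j = j0
        · rw [hj]; exact h
        · rw [hother j hj]; exact mem_univ _
    rw [h1, prod_eq_single j0]
    · intro j _ hj
      rw [hother j hj, card_univ, div_self hZ]
    · intro h
      exact absurd (mem_univ _) h
  · push Not at hc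
    have h1 : interBox B s c = univ := by
      unfold interBox
      ext z
      simp only [mem_filter, mem_univ, true_and, iff_true]
      intro j
      rw [hS j c (hc j)]
      exact mem_univ _
    rw [h1, card_univ, div_self hZ, prod_eq_one]
    intro j _
    rw [hS j c (hc j), card_univ, div_self hZ]

/-- First moment bound for the number of `h`-tuples of box events with pairwise disjoint
supports. -/
theorem box_tuples {α : Type*} [DecidableEq α] (F : Finset α)
    (B : α → (i : ι) → Finset (Z i)) (S : α → Finset ι) (w : α → ℝ) (W : ℝ)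
    (hS : ∀ a ∈ F, ∀ i, i ∉ S a → B a i = univ)
    (hw : ∀ a ∈ F, dens (B a) ≤ w a) (hW : ∑ a ∈ F, w a ≤ W) (h : ℕ)
    (Bad : Finset ((i : ι) → Z i))
    (hBad : ∀ ω ∈ Bad, ∃ T ⊆ F, T.card = h ∧
      (∀ a ∈ T, ∀ b ∈ T, a ≠ b → Disjoint (S a) (S b)) ∧ ∀ a ∈ T, ∀ i, ω i ∈ B a i) :
    (Bad.card : ℝ) * (h.factorial : ℝ) ≤ W ^ h * (Fintype.card ((i : ι) → Z i) : ℝ) := by
  classical
  set D : Finset (Fin h → α) := (Fintype.piFinset (fun _ : Fin h => F)).filter
    (fun s => ∀ i j, i ≠ j → Disjoint (S (s i)) (S (s j))) with hD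
  have hw0 : ∀ a ∈ F, 0 ≤ w a := fun a ha => (dens_nonneg _).trans (hw a ha)
  -- each bad point has at least h! tuples
  have h1 : ∀ ω ∈ Bad, h.factorial ≤
      (D.filter (fun s => ∀ j, ∀ i, ω i ∈ B (s j) i)).card := by
    intro ω hω
    obtain ⟨T, hTF, hTc, hTd, hTB⟩ := hBad ω hω
    have e0 : Fin h ≃ T := (finCongr hTc.symm).trans (T.equivFin).symm
    have hcard : Fintype.card (Fin h ≃ T) = h.factorial := by
      rw [Fintype.card_equiv e0, Fintype.card_fin]
    rw [← hcard, ← card_univ]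
    refine card_le_card_of_injOn (fun e i => ((e i : T) : α)) ?_ ?_
    · intro e _
      simp only [coe_filter, Set.mem_ofPred_eq, hD, mem_filter, Fintype.mem_piFinset]
      refine ⟨⟨fun i => hTF (e i).2, ?_⟩, fun j i => hTB _ (e j).2 i⟩
      intro i j hij
      apply hTd _ (e i).2 _ (e j).2
      intro heq
      exact hij (e.injective (Subtype.ext heq))
    · intro e _ e' _ hee
      ext i
      exact congrFun hee i
  have h2 : (Bad.card : ℝ) * (h.factorial : ℝ) ≤
      ∑ ω : (i : ι) → Z i, ((D.filter (fun s => ∀ j, ∀ i, ω i ∈ B (s j) i)).card : ℝ) := by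
    calc (Bad.card : ℝ) * (h.factorial : ℝ) = ∑ ω ∈ Bad, (h.factorial : ℝ) := by
          rw [sum_const, nsmul_eq_mul]
      _ ≤ ∑ ω ∈ Bad, ((D.filter (fun s => ∀ j, ∀ i, ω i ∈ B (s j) i)).card : ℝ) :=
          sum_le_sum (fun ω hω => by exact_mod_cast h1 ω hω)
      _ ≤ _ := sum_le_sum_of_subset_of_nonneg (subset_univ _) (fun _ _ _ => by positivity)
  have h3 : ∑ ω : (i : ι) → Z i, ((D.filter (fun s => ∀ j, ∀ i, ω i ∈ B (s j) i)).card : ℝ)
      = ∑ s ∈ D, ((univ.filter (fun ω : (i : ι) → Z i => ∀ i, ω i ∈ interBox B s i)).card : ℝ) := by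
    have : ∀ ω : (i : ι) → Z i, ((D.filter (fun s => ∀ j, ∀ i, ω i ∈ B (s j) i)).card : ℝ)
        = ∑ s ∈ D, if (∀ j, ∀ i, ω i ∈ B (s j) i) then (1 : ℝ) else 0 := by
      intro ω
      rw [card_filter]
      push_cast
      rfl
    rw [sum_congr rfl (fun ω _ => this ω), sum_comm]
    refine sum_congr rfl (fun s _ => ?_)
    rw [card_filter]
    push_cast
    refine sum_congr rfl (fun ω _ => ?_)
    have hiff : (∀ j, ∀ i, ω i ∈ B (s j) i) ↔ ∀ i, ω i ∈ interBox B s i := by
      unfold interBox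
      simp only [mem_filter, mem_univ, true_and]
      exact ⟨fun h i j => h j i, fun h j i => h i j⟩
    simp only [hiff]
  have h4 : ∀ s ∈ D, ((univ.filter
      (fun ω : (i : ι) → Z i => ∀ i, ω i ∈ interBox B s i)).card : ℝ)
      ≤ (∏ j, w (s j)) * (Fintype.card ((i : ι) → Z i) : ℝ) := by
    intro s hs
    rw [hD, mem_filter, Fintype.mem_piFinset] at hs
    rw [card_box, dens_interBox B S s (fun j => hS _ (hs.1 j)) hs.2]
    apply mul_le_mul_of_nonneg_right _ (by positivity)
    exact prod_le_prod (fun j _ => dens_nonneg _) (fun j _ => hw _ (hs.1 j))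
  have h5 : ∑ s ∈ D, (∏ j, w (s j)) ≤ W ^ h := by
    calc ∑ s ∈ D, (∏ j, w (s j)) ≤ ∑ s ∈ Fintype.piFinset (fun _ : Fin h => F), ∏ j, w (s j) := by
          apply sum_le_sum_of_subset_of_nonneg (filter_subset _ _)
          intro s hs _
          rw [Fintype.mem_piFinset] at hs
          exact prod_nonneg (fun j _ => hw0 _ (hs j))
      _ = (∑ a ∈ F, w a) ^ h := by
          rw [← prod_univ_sum (fun _ : Fin h => F) (fun _ a => w a), prod_const, card_univ,
            Fintype.card_fin]
      _ ≤ W ^ h := pow_le_pow_left₀ (sum_nonneg hw0) hW h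
  calc (Bad.card : ℝ) * (h.factorial : ℝ) ≤ _ := h2
    _ = _ := h3
    _ ≤ ∑ s ∈ D, (∏ j, w (s j)) * (Fintype.card ((i : ι) → Z i) : ℝ) := sum_le_sum h4
    _ = (∑ s ∈ D, (∏ j, w (s j))) * (Fintype.card ((i : ι) → Z i) : ℝ) := by rw [sum_mul]
    _ ≤ _ := mul_le_mul_of_nonneg_right h5 (by positivity)

end Boxes

end Pool.Agent.Helper3.Thin
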