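import Pool.Agent.Helper3.ThinDigits
import Pool.Agent.Helper3.ThinProb
import Pool.Agent.Helper3.ThinGraph

set_option autoImplicit false
set_option linter.unusedSectionVars false

namespace Pool.Agent.Helper3.Thin

open Finset

variable (q : ℕ → ℕ) [hqp : ∀ k, Fact (q k).Prime] (Γ : ∀ k, Finset (ZMod (q k) × ZMod (q k)))

/-- Cells: a scale `j < K` together with two low digits. -/
abbrev Cell (K : ℕ) := (j : Fin K) × (ZMod (q j) × ZMod (q j))

/-- Candidate elements of scale `j` for representing `nn j` with scale `k`. -/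
def edgeFib {K : ℕ} (k : Fin K) (nn : Fin K → ℕ) (j : Fin K) : Finset ℕ :=
  (range (q j ^ 4)).filter (fun a => a ≤ nn j ∧ nn j - a < q k ^ 4 ∧
    dig (q j) a ∈ Γ j ∧ dig (q k) (nn j - a) ∈ Γ k)

/-- Candidate edges. -/
def edges {K : ℕ} (k : Fin K) (nn : Fin K → ℕ) : Finset ((_ : Fin K) × ℕ) :=
  (univ.filter (fun j => j < k)).sigma (edgeFib q Γ k nn)

/-- lower cell of an edge -/
def lo {K : ℕ} (e : (_ : Fin K) × ℕ) : Cell q K := ⟨e.1, dig (q e.1) e.2⟩

/-- upper cell of an edge -/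
def up {K : ℕ} (k : Fin K) (nn : Fin K → ℕ) (e : (_ : Fin K) × ℕ) : Cell q K :=
  ⟨k, dig (q k) (nn e.1 - e.2)⟩

/-- The scale parameters are admissible. -/
structure Adm : Prop where
  good : ∀ k, GoodSet (Γ k)
  grow : ∀ k, 2 * q k ≤ q (k + 1)
  big : 36 ≤ q 0

variable {q Γ}

lemma Adm.lt (h : Adm q Γ) {j k : ℕ} (hjk : j < k) : q j < q k := by
  have : StrictMono q := strictMono_nat_of_lt_succ (fun n => by
    have h1 := h.grow n
    have h2 := (hqp n).out.pos
    omega)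
  exact this hjk

lemma Adm.sum_le (h : Adm q Γ) (k : ℕ) : ∑ j ∈ range k, q j ≤ q k := by
  induction k with
  | zero => simp
  | succ k ih =>
    rw [sum_range_succ]
    have := h.grow k
    omega

lemma Adm.ge (h : Adm q Γ) (k : ℕ) : 36 ≤ q k := by
  rcases Nat.eq_zero_or_pos k with rfl | hk
  · exact h.big
  · exact h.big.trans (h.lt hk).le

lemma Adm.sum_inv_le (h : Adm q Γ) (k : ℕ) :
    ∑ j ∈ range k, (1 : ℝ) / (q j : ℝ) ≤ 2 / (q 0 : ℝ) - 2 / (q k : ℝ) := by
  induction k with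
  | zero => simp
  | succ k ih =>
    rw [sum_range_succ]
    have h1 : (0 : ℝ) < q k := by exact_mod_cast (hqp k).out.pos
    have h2 : (2 : ℝ) * q k ≤ q (k + 1) := by exact_mod_cast h.grow k
    have h3 : (2 : ℝ) / (q (k + 1) : ℝ) ≤ 1 / (q k : ℝ) := by
      rw [div_le_div_iff₀ (by linarith) h1]
      linarith
    have h4 : (2 : ℝ) / (q k : ℝ) = 1 / (q k : ℝ) + 1 / (q k : ℝ) := by ring
    linarith

lemma mem_edgeFib {K : ℕ} {k : Fin K} {nn : Fin K → ℕ} {j : Fin K} {a : ℕ} :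
    a ∈ edgeFib q Γ k nn j ↔ a < q j ^ 4 ∧ a ≤ nn j ∧ nn j - a < q k ^ 4 ∧
    dig (q j) a ∈ Γ j ∧ dig (q k) (nn j - a) ∈ Γ k := by
  unfold edgeFib
  rw [mem_filter, mem_range]

lemma mem_edges {K : ℕ} {k : Fin K} {nn : Fin K → ℕ} {e : (_ : Fin K) × ℕ} :
    e ∈ edges q Γ k nn ↔ e.1 < k ∧ e.2 ∈ edgeFib q Γ k nn e.1 := by
  unfold edges
  rw [mem_sigma, mem_filter]
  simp

/-- An element is determined by its lower and upper cell. -/
lemma edge_unique (h : Adm q Γ) {K : ℕ} {k : Fin K} {nn : Fin K → ℕ} {j : Fin K} (hjk : j < k)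
    {a a' : ℕ} (ha : a ∈ edgeFib q Γ k nn j) (ha' : a' ∈ edgeFib q Γ k nn j)
    (h1 : dig (q j) a = dig (q j) a') (h2 : dig (q k) (nn j - a) = dig (q k) (nn j - a')) :
    a = a' := by
  rw [mem_edgeFib] at ha ha'
  rw [dig_eq_iff] at h1 h2
  have h1' : a ≡ a' [MOD (q j) ^ 2] := h1
  have h2' : a ≡ a' [MOD (q k) ^ 2] := by
    have e1 : a + (nn j - a) = a' + (nn j - a') := by omega
    have h3 : (nn j - a') ≡ (nn j - a) [MOD (q k) ^ 2] := h2.symm
    have h4 : a + (nn j - a) ≡ a' + (nn j - a') [MOD (q k) ^ 2] := by rw [e1]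
    exact Nat.ModEq.add_right_cancel h2 h4
  have hlt : q j < q k := h.lt hjk
  have hcop : Nat.Coprime ((q j) ^ 2) ((q k) ^ 2) := by
    apply Nat.Coprime.pow
    exact (Nat.coprime_primes (hqp j).out (hqp k).out).2 (ne_of_lt hlt)
  have h5 := (Nat.modEq_and_modEq_iff_modEq_mul hcop).1 ⟨h1', h2'⟩
  have h6 : q j ^ 4 ≤ (q j) ^ 2 * (q k) ^ 2 := by
    have : (q j) ^ 2 ≤ (q k) ^ 2 := Nat.pow_le_pow_left hlt.le 2
    calc q j ^ 4 = (q j) ^ 2 * (q j) ^ 2 := by ring
      _ ≤ _ := Nat.mul_le_mul_left _ this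
  exact Nat.ModEq.eq_of_lt_of_lt h5 (lt_of_lt_of_le ha.1 h6) (lt_of_lt_of_le ha'.1 h6)

/-- Degree bound for lower cells. -/
lemma deg_lo_le (h : Adm q Γ) {K : ℕ} {k : Fin K} (nn : Fin K → ℕ) {j : Fin K} (hjk : j < k)
    (u : ZMod (q j) × ZMod (q j)) :
    ((edgeFib q Γ k nn j).filter (fun a => dig (q j) a = u)).card ≤ 9 * q j := by
  have hq0 : 0 < q j := (hqp j).out.pos
  have hkey := ap_bound (h.good k) (nn j) ((q j) ^ 2) ((q j) ^ 2) (by positivity)
    ((edgeFib q Γ k nn j).filter (fun a => dig (q j) a = u))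
    (by
      intro x hx
      rw [mem_filter, mem_edgeFib] at hx
      exact hx.1.2.1)
    (by
      intro x hx
      rw [mem_filter, mem_edgeFib] at hx
      exact hx.1.2.2.2.2)
    (by
      intro x hx y hy
      rw [mem_filter] at hx hy
      rw [← dig_eq_iff, hx.2, hy.2])
    (by
      intro x hx y hy
      rw [mem_filter, mem_edgeFib] at hx
      have h1 := hx.1.1
      have h2 : q j ^ 4 = q j ^ 2 * q j ^ 2 := by ring
      omega)
    (by
      intro x hx y hy hxy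
      rw [mem_filter] at hx hy
      exact edge_unique h hjk hx.1 hy.1 (by rw [hx.2, hy.2]) hxy)
  have h36 : 36 ≤ q j := h.ge j
  have h2 : ((edgeFib q Γ k nn j).filter (fun a => dig (q j) a = u)).card ^ 2
      ≤ (9 * q j) ^ 2 := by
    refine hkey.trans ?_
    nlinarith
  exact le_of_sq_le_sq' h2
where
  le_of_sq_le_sq' {a b : ℕ} (h : a ^ 2 ≤ b ^ 2) : a ≤ b := by
    by_contra hc
    push Not at hc
    have := Nat.pow_lt_pow_left hc (n := 2) (by norm_num)
    omega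

/-- Number of candidates at scale `j`. -/
lemma card_edgeFib_le (h : Adm q Γ) {K : ℕ} {k : Fin K} (nn : Fin K → ℕ) {j : Fin K}
    (hjk : j < k) : (edgeFib q Γ k nn j).card ≤ 27 * q j ^ 2 := by
  have h1 := card_le_mul_card_image (f := dig (q j)) (edgeFib q Γ k nn j) (9 * q j)
    (fun b _ => deg_lo_le h nn hjk b)
  have h2 : (image (dig (q j)) (edgeFib q Γ k nn j)).card ≤ 3 * q j := by
    have : image (dig (q j)) (edgeFib q Γ k nn j) ⊆ Γ j := by
      intro u hu
      rw [mem_image] at hu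
      obtain ⟨a, ha, rfl⟩ := hu
      rw [mem_edgeFib] at ha
      exact ha.2.2.2.1
    refine (card_le_card this).trans ?_
    have := (h.good j).card_le
    rwa [ZMod.card] at this
  calc _ ≤ 9 * q j * _ := h1
    _ ≤ 9 * q j * (3 * q j) := Nat.mul_le_mul_left _ h2
    _ = 27 * q j ^ 2 := by ring

/-- Degree bound for upper cells, one lower scale at a time. -/
lemma deg_up_le (h : Adm q Γ) {K : ℕ} {k : Fin K} (nn : Fin K → ℕ) {j : Fin K} (hjk : j < k)
    (v : ZMod (q k) × ZMod (q k)) :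
    (((edgeFib q Γ k nn j).filter (fun a => dig (q k) (nn j - a) = v)).card : ℝ)
      ≤ 9 * (q j : ℝ) ^ 2 / (q k : ℝ) + 6 := by
  classical
  have hq0 : 0 < q k := (hqp k).out.pos
  set T := (edgeFib q Γ k nn j).filter (fun a => dig (q k) (nn j - a) = v) with hT
  set T' := T.image (fun a => nn j - a) with hT'
  have hcard : T'.card = T.card := by
    rw [hT', card_image_of_injOn]
    intro x hx y hy hxy
    have hx' := (mem_edgeFib.1 (mem_filter.1 hx).1).2.1
    have hy' := (mem_edgeFib.1 (mem_filter.1 hy).1).2.1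
    simp only at hxy
    omega
  have hmem : ∀ x ∈ T', x ≤ nn j ∧ (nn j - x) ∈ T := by
    intro x hx
    rw [hT', mem_image] at hx
    obtain ⟨a, ha, rfl⟩ := hx
    have ha' := (mem_edgeFib.1 (mem_filter.1 ha).1).2.1
    refine ⟨Nat.sub_le _ _, ?_⟩
    rw [Nat.sub_sub_self ha']
    exact ha
  have hkey := ap_bound (h.good j) (nn j) ((q k) ^ 2) (q j ^ 4 / q k ^ 2) (by positivity) T'
    (fun x hx => (hmem x hx).1)
    (by
      intro x hx
      have := (hmem x hx).2
      rw [hT, mem_filter, mem_edgeFib] at this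
      exact this.1.2.2.2.1)
    (by
      intro x hx y hy
      have h1 := (hmem x hx).2
      have h2 := (hmem y hy).2
      have h3 := (hmem x hx).1
      have h4 := (hmem y hy).1
      rw [hT, mem_filter] at h1 h2
      rw [Nat.sub_sub_self h3] at h1
      rw [Nat.sub_sub_self h4] at h2
      rw [← dig_eq_iff, h1.2, h2.2])
    (by
      intro x hx y hy
      have h1 := (hmem x hx).2
      have h2 := (hmem y hy).2
      have h3 := (hmem x hx).1
      have h4 := (hmem y hy).1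
      rw [hT, mem_filter] at h1 h2
      rw [Nat.sub_sub_self h3] at h1
      rw [Nat.sub_sub_self h4] at h2
      have h5 : x % (q k ^ 2) = y % (q k ^ 2) := by rw [← dig_eq_iff, h1.2, h2.2]
      rcases le_total x y with hxy | hxy
      · exact hxy.trans (Nat.le_add_right _ _)
      · obtain ⟨t, ht⟩ := (Nat.modEq_iff_dvd' hxy).1 h5.symm
        have h6 : nn j - y < q j ^ 4 := (mem_edgeFib.1 h2.1).1
        have h7 : q k ^ 2 * t < q j ^ 4 := by omega
        have h8 : t ≤ q j ^ 4 / q k ^ 2 := by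
          rw [Nat.le_div_iff_mul_le (by positivity)]
          rw [mul_comm]
          exact h7.le
        have h9 : q k ^ 2 * t ≤ q k ^ 2 * (q j ^ 4 / q k ^ 2) := Nat.mul_le_mul_left _ h8
        omega)
    (by
      intro x hx y hy hxy
      have h1 := (hmem x hx).2
      have h2 := (hmem y hy).2
      have h3 := (hmem x hx).1
      have h4 := (hmem y hy).1
      rw [hT, mem_filter] at h1 h2
      have := edge_unique h hjk h1.1 h2.1 hxy (by rw [h1.2, h2.2])
      omega)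
  rw [hcard] at hkey
  have hkR : ((T.card : ℝ)) ^ 2 ≤ 36 * (2 * ((q j : ℝ) ^ 4 / (q k : ℝ) ^ 2) + 1) := by
    have h1 : ((T.card : ℝ)) ^ 2 ≤ 36 * (2 * ((q j ^ 4 / q k ^ 2 : ℕ) : ℝ) + 1) := by
      exact_mod_cast hkey
    have h2 : ((q j ^ 4 / q k ^ 2 : ℕ) : ℝ) ≤ (q j : ℝ) ^ 4 / (q k : ℝ) ^ 2 := by
      have := Nat.cast_div_le (α := ℝ) (m := q j ^ 4) (n := q k ^ 2)
      push_cast at this
      exact this
    linarith
  have hqk : (0 : ℝ) < q k := by exact_mod_cast hq0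
  have hpos : (0 : ℝ) ≤ (q j : ℝ) ^ 2 / (q k : ℝ) := by positivity
  have h3 : (9 * (q j : ℝ) ^ 2 / (q k : ℝ) + 6) ^ 2
      = 81 * ((q j : ℝ) ^ 4 / (q k : ℝ) ^ 2) + 108 * ((q j : ℝ) ^ 2 / (q k : ℝ)) + 36 := by
    field_simp
    ring
  have h4 : (0 : ℝ) ≤ (q j : ℝ) ^ 4 / (q k : ℝ) ^ 2 := by positivity
  apply le_of_sq_le_sq _ (by positivity)
  rw [h3]
  linarith
where
  le_of_sq_le_sq {a b : ℝ} (h : a ^ 2 ≤ b ^ 2) (hb : 0 ≤ b) : a ≤ b := by
    exact le_of_abs_le_abs_nonneg h hb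
  le_of_abs_le_abs_nonneg {a b : ℝ} (h : a ^ 2 ≤ b ^ 2) (hb : 0 ≤ b) : a ≤ b := by
    nlinarith [abs_nonneg a, le_abs_self a]

end Pool.Agent.Helper3.Thin
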