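import Pool.Agent.Helper3.ThinBad

set_option autoImplicit false
set_option linter.unusedSectionVars false

namespace Pool.Agent.Helper3.Thin

open Finset

variable {q : ℕ → ℕ} [hqp : ∀ k, Fact (q k).Prime] {Γ : ∀ k, Finset (ZMod (q k) × ZMod (q k))}

/-- Offset labels. -/
abbrev Lab := Fin 2 × Fin 2 × Fin 2 × Fin 512

/-- The offset attached to a label. -/
def off (p : ℕ) (ε : Lab) : ℕ :=
  ε.1 * p + ε.2.1 * p ^ 2 + ε.2.2.1 * p ^ 3 + (ε.2.2.2 + 1) * p ^ 4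

lemma card_Lab : Fintype.card Lab = 4096 := by
  simp [Lab, Fintype.card_prod]

/-- Targets after removing the offset. -/
def targ (q : ℕ → ℕ) {K : ℕ} (n : ℕ) (ε : Lab) : Fin K → ℕ := fun j => n - off (q j) ε

lemma Adm.pow_le (h : Adm q Γ) (k : ℕ) : 2 ^ k * q 0 ≤ q k := by
  induction k with
  | zero => simp
  | succ k ih =>
    have := h.grow k
    rw [pow_succ]
    calc 2 ^ k * 2 * q 0 = 2 * (2 ^ k * q 0) := by ring
      _ ≤ 2 * q k := Nat.mul_le_mul_left _ ih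
      _ ≤ _ := this

lemma term_bound (x : ℝ) (k : ℕ) (hx : (2 : ℝ) ^ k * 10 ^ 15 ≤ x) (P : ℝ) (hP0 : 0 ≤ P)
    (hP : P * x ^ 8 ≤ 1) :
    (1000 * x ^ 4 * 4096) * ((1 + 2 * x ^ 2) * P + (100000 / x) ^ 7) ≤ (1 / 4 : ℝ) ^ (k + 1) := by
  have h2 : (1 : ℝ) ≤ (2 : ℝ) ^ k := one_le_pow₀ (by norm_num)
  have hx1 : (10 : ℝ) ^ 15 ≤ x := by nlinarith
  have hx0 : (0 : ℝ) < x := by linarith [show (0 : ℝ) < 10 ^ 15 by norm_num]
  have h4 : (4 : ℝ) ^ k * 10 ^ 30 ≤ x ^ 2 := by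
    have : ((2 : ℝ) ^ k * 10 ^ 15) ^ 2 ≤ x ^ 2 := pow_le_pow_left₀ (by positivity) hx 2
    have e : ((2 : ℝ) ^ k * 10 ^ 15) ^ 2 = (4 : ℝ) ^ k * 10 ^ 30 := by
      rw [mul_pow, ← pow_mul, mul_comm k 2, pow_mul]
      norm_num
    rwa [e] at this
  have a1 : (1000 * x ^ 4 * 4096) * ((1 + 2 * x ^ 2) * P) ≤ 12288000 / x ^ 2 := by
    rw [le_div_iff₀ (by positivity)]
    have e1 : 1 + 2 * x ^ 2 ≤ 3 * x ^ 2 := by nlinarith
    calc (1000 * x ^ 4 * 4096) * ((1 + 2 * x ^ 2) * P) * x ^ 2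
        ≤ (1000 * x ^ 4 * 4096) * ((3 * x ^ 2) * P) * x ^ 2 := by gcongr
      _ = 12288000 * (P * x ^ 8) := by ring
      _ ≤ 12288000 * 1 := by gcongr
      _ = _ := by norm_num
  have a2 : (1000 * x ^ 4 * 4096) * ((100000 / x) ^ 7) ≤ 4096000 * 10 ^ 20 / x ^ 2 := by
    rw [le_div_iff₀ (by positivity), div_pow]
    have e1 : (1000 * x ^ 4 * 4096) * (100000 ^ 7 / x ^ 7) * x ^ 2
        = 4096000 * 10 ^ 35 / x := by
      field_simp
      ring
    rw [e1, div_le_iff₀ hx0]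
    nlinarith
  have h4pos : (0 : ℝ) < (4 : ℝ) ^ k := by positivity
  calc (1000 * x ^ 4 * 4096) * ((1 + 2 * x ^ 2) * P + (100000 / x) ^ 7)
      = (1000 * x ^ 4 * 4096) * ((1 + 2 * x ^ 2) * P) +
        (1000 * x ^ 4 * 4096) * ((100000 / x) ^ 7) := by ring
    _ ≤ 12288000 / x ^ 2 + 4096000 * 10 ^ 20 / x ^ 2 := add_le_add a1 a2
    _ = (12288000 + 4096000 * 10 ^ 20) / x ^ 2 := by ring
    _ ≤ (12288000 + 4096000 * 10 ^ 20) / ((4 : ℝ) ^ k * 10 ^ 30) := by gcongr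
    _ ≤ (1 / 4 : ℝ) ^ (k + 1) := by
      rw [div_le_iff₀ (by positivity), one_div, inv_pow]
      have e : ((4 : ℝ) ^ (k + 1))⁻¹ * ((4 : ℝ) ^ k * 10 ^ 30) = 10 ^ 30 / 4 := by
        rw [pow_succ]
        field_simp
      rw [e]
      norm_num

theorem exists_tau (hA : Adm q Γ) (hbig : 10 ^ 15 ≤ q 0) (M : ℕ → ℕ)
    (hM : ∀ k, 243 ^ (M k) * (q k) ^ 8 ≤ (M k).factorial) (K : ℕ) :
    ∃ τ : Om q K, ∀ k : Fin K, ∀ n < 1000 * q k ^ 4, ∀ ε : Lab,
      Fine Γ k (targ q n ε) (M k) 7 τ := by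
  classical
  by_contra hcon
  push Not at hcon
  set Bad : Fin K → ℕ → Lab → Finset (Om q K) := fun k n ε =>
    univ.filter (fun τ => ¬ Fine Γ k (targ q n ε) (M k) 7 τ) with hBad
  have hcover : (univ : Finset (Om q K)) ⊆ univ.biUnion (fun k : Fin K =>
      (range (1000 * q k ^ 4)).biUnion (fun n => univ.biUnion (fun ε : Lab => Bad k n ε))) := by
    intro τ _
    obtain ⟨k, n, hn, ε, hf⟩ := hcon τ
    rw [mem_biUnion]
    refine ⟨k, mem_univ _, ?_⟩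
    rw [mem_biUnion]
    refine ⟨n, mem_range.2 hn, ?_⟩
    rw [mem_biUnion]
    refine ⟨ε, mem_univ _, ?_⟩
    rw [hBad]
    simp only
    rw [mem_filter]
    exact ⟨mem_univ _, hf⟩
  set C : ℝ := (Fintype.card (Om q K) : ℝ) with hC
  have hC0 : 0 < C := by
    rw [hC]
    exact_mod_cast Fintype.card_pos
  have hterm : ∀ k : Fin K, (((range (1000 * q k ^ 4)).biUnion
      (fun n => univ.biUnion (fun ε : Lab => Bad k n ε))).card : ℝ)
      ≤ C * (1 / 4 : ℝ) ^ ((k : ℕ) + 1) := by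
    intro k
    set P : ℝ := (243 : ℝ) ^ (M k) / ((M k).factorial : ℝ) with hP
    have hP0 : 0 ≤ P := by positivity
    have hfac : (0 : ℝ) < ((M k).factorial : ℝ) := by exact_mod_cast (M k).factorial_pos
    have hP1 : P * (q k : ℝ) ^ 8 ≤ 1 := by
      rw [hP, div_mul_eq_mul_div, div_le_one hfac]
      exact_mod_cast hM k
    have hx : (2 : ℝ) ^ (k : ℕ) * 10 ^ 15 ≤ (q k : ℝ) := by
      have h1 := hA.pow_le k
      have h2 : 2 ^ (k : ℕ) * 10 ^ 15 ≤ q k := (Nat.mul_le_mul_left _ hbig).trans h1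
      exact_mod_cast h2
    have hb : ∀ n ε, ((Bad k n ε).card : ℝ) ≤ C * ((1 + 2 * (q k : ℝ) ^ 2) * P +
        (100000 / (q k : ℝ)) ^ 7) := by
      intro n ε
      apply bad_count hA k (targ q n ε) (M k) 7 (Bad k n ε)
      intro τ hτ
      rw [hBad] at hτ
      simp only at hτ
      rw [mem_filter] at hτ
      exact hτ.2
    calc (((range (1000 * q k ^ 4)).biUnion
        (fun n => univ.biUnion (fun ε : Lab => Bad k n ε))).card : ℝ)
        ≤ ((∑ n ∈ range (1000 * q k ^ 4), ∑ ε : Lab, (Bad k n ε).card : ℕ) : ℝ) := by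
          have : ((range (1000 * q k ^ 4)).biUnion
            (fun n => univ.biUnion (fun ε : Lab => Bad k n ε))).card ≤
            ∑ n ∈ range (1000 * q k ^ 4), ∑ ε : Lab, (Bad k n ε).card := by
            refine card_biUnion_le.trans (sum_le_sum (fun n _ => card_biUnion_le))
          exact_mod_cast this
      _ = ∑ n ∈ range (1000 * q k ^ 4), ∑ ε : Lab, ((Bad k n ε).card : ℝ) := by push_cast; rfl
      _ ≤ ∑ n ∈ range (1000 * q k ^ 4), ∑ ε : Lab, C * ((1 + 2 * (q k : ℝ) ^ 2) * P +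
        (100000 / (q k : ℝ)) ^ 7) := sum_le_sum (fun n _ => sum_le_sum (fun ε _ => hb n ε))
      _ = C * ((1000 * (q k : ℝ) ^ 4 * 4096) * ((1 + 2 * (q k : ℝ) ^ 2) * P +
        (100000 / (q k : ℝ)) ^ 7)) := by
          rw [sum_const, sum_const, card_univ, card_Lab, card_range, nsmul_eq_mul, nsmul_eq_mul]
          push_cast
          ring
      _ ≤ C * (1 / 4 : ℝ) ^ ((k : ℕ) + 1) :=
          mul_le_mul_of_nonneg_left (term_bound _ k hx P hP0 hP1) hC0.le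
  have htot : C ≤ ∑ k : Fin K, C * (1 / 4 : ℝ) ^ ((k : ℕ) + 1) := by
    calc C = ((univ : Finset (Om q K)).card : ℝ) := by rw [hC, card_univ]
      _ ≤ ((∑ k : Fin K, ((range (1000 * q k ^ 4)).biUnion
          (fun n => univ.biUnion (fun ε : Lab => Bad k n ε))).card : ℕ) : ℝ) := by
          exact_mod_cast (card_le_card hcover).trans card_biUnion_le
      _ = ∑ k : Fin K, (((range (1000 * q k ^ 4)).biUnion
          (fun n => univ.biUnion (fun ε : Lab => Bad k n ε))).card : ℝ) := by push_cast; rfl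
      _ ≤ _ := sum_le_sum (fun k _ => hterm k)
  have hgeom : ∑ k : Fin K, (1 / 4 : ℝ) ^ ((k : ℕ) + 1) ≤ 1 / 3 - (1 / 3) * (1 / 4 : ℝ) ^ K := by
    rw [Fin.sum_univ_eq_sum_range (fun k => (1 / 4 : ℝ) ^ (k + 1)) K]
    clear hterm htot hcover hcon hBad Bad hC0 hC C
    induction K with
    | zero => simp
    | succ n ih =>
      rw [sum_range_succ]
      have : (1 / 4 : ℝ) ^ (n + 1) = (1 / 4 : ℝ) ^ n * (1 / 4) := pow_succ _ _
      rw [this]
      linarith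
  rw [← mul_sum] at htot
  have hpow : (0 : ℝ) < (1 / 4 : ℝ) ^ K := by positivity
  nlinarith

end Pool.Agent.Helper3.Thin
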