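import Mathlib

set_option autoImplicit false

namespace Pool.Agent.Helper3.Thin

open Finset

/-- A nondegenerate quadratic equation over a finite field has at most two solutions. -/
lemma card_quad_le_two {F : Type*} [Field F] [Fintype F] [DecidableEq F] (a b c : F)
    (ha : a ≠ 0) :
    (univ.filter (fun x : F => a * x ^ 2 + b * x + c = 0)).card ≤ 2 := by
  by_contra h
  push Not at h
  obtain ⟨x, hx, y, hy, z, hz, hxy, hxz, hyz⟩ := Finset.two_lt_card.1 h
  simp only [mem_filter, mem_univ, true_and] at hx hy hz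
  have h1 : (x - y) * (a * (x + y) + b) = 0 := by linear_combination hx - hy
  have h2 : (x - z) * (a * (x + z) + b) = 0 := by linear_combination hx - hz
  have h1' : a * (x + y) + b = 0 := by
    rcases mul_eq_zero.1 h1 with h | h
    · exact absurd (sub_eq_zero.1 h) hxy
    · exact h
  have h2' : a * (x + z) + b = 0 := by
    rcases mul_eq_zero.1 h2 with h | h
    · exact absurd (sub_eq_zero.1 h) hxz
    · exact h
  have h3 : a * (y - z) = 0 := by linear_combination h1' - h2'
  rcases mul_eq_zero.1 h3 with h | h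
  · exact ha h
  · exact hyz (sub_eq_zero.1 h)

/-- The union of the parabolas `y = c x ^ 2` for `c ∈ T`. -/
def parab {F : Type*} [Field F] [Fintype F] [DecidableEq F] (T : Finset F) : Finset (F × F) :=
  (T ×ˢ univ).image (fun p => (p.2, p.1 * p.2 ^ 2))

lemma mem_parab {F : Type*} [Field F] [Fintype F] [DecidableEq F] (T : Finset F) (u : F × F) :
    u ∈ parab T ↔ ∃ c ∈ T, u.2 = c * u.1 ^ 2 := by
  unfold parab
  simp only [mem_image, mem_product, mem_univ, and_true, Prod.exists]
  constructor
  · rintro ⟨c, x, hc, rfl⟩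
    exact ⟨c, hc, rfl⟩
  · rintro ⟨c, hc, h⟩
    exact ⟨c, u.1, hc, by rw [← h]⟩

lemma card_parab_le {F : Type*} [Field F] [Fintype F] [DecidableEq F] (T : Finset F) :
    (parab T).card ≤ T.card * Fintype.card F := by
  unfold parab
  refine card_image_le.trans ?_
  rw [card_product, card_univ]

/-- The properties of the finite model set that the construction uses. -/
structure GoodSet {F : Type*} [Field F] [Fintype F] [DecidableEq F] (G : Finset (F × F)) :
    Prop where
  card_le : G.card ≤ 3 * Fintype.card F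
  cover : ∀ z : F × F, ∃ u ∈ G, ∃ v ∈ G, u + v = z
  sum_le : ∀ z : F × F, ((G ×ˢ G).filter (fun p => p.1 + p.2 = z)).card ≤ 18
  diff_le : ∀ z : F × F, z ≠ 0 → ((G ×ˢ G).filter (fun p => p.1 - p.2 = z)).card ≤ 18

lemma sum_le_aux {F : Type*} [Field F] [Fintype F] [DecidableEq F] (T : Finset F)
    (hT : T.card ≤ 3) (hne : ∀ c ∈ T, ∀ d ∈ T, c + d ≠ 0) (z : F × F) :
    ((parab T ×ˢ parab T).filter (fun p => p.1 + p.2 = z)).card ≤ 18 := by
  classical
  have key : (parab T ×ˢ parab T).filter (fun p => p.1 + p.2 = z) ⊆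
      (T ×ˢ T).biUnion (fun cd => (univ.filter (fun x : F =>
        (cd.1 + cd.2) * x ^ 2 + (-(2 * cd.2 * z.1)) * x + (cd.2 * z.1 ^ 2 - z.2) = 0)).image
          (fun x => ((x, cd.1 * x ^ 2), (z.1 - x, cd.2 * (z.1 - x) ^ 2)))) := by
    intro p hp
    simp only [mem_filter, mem_product, mem_parab] at hp
    obtain ⟨⟨⟨c, hc, h1⟩, ⟨d, hd, h2⟩⟩, h3⟩ := hp
    have e1 : p.1.1 + p.2.1 = z.1 := by rw [← h3]; rfl
    have e2 : p.1.2 + p.2.2 = z.2 := by rw [← h3]; rfl
    simp only [mem_biUnion, mem_product, mem_image, mem_filter, mem_univ, true_and, Prod.exists]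
    refine ⟨c, d, ⟨hc, hd⟩, p.1.1, ?_, ?_⟩
    · have : p.2.1 = z.1 - p.1.1 := by rw [← e1]; ring
      rw [h1, h2, this] at e2
      linear_combination e2
    · have : p.2.1 = z.1 - p.1.1 := by rw [← e1]; ring
      refine Prod.ext (Prod.ext rfl h1.symm) (Prod.ext this.symm ?_)
      simp only
      rw [h2, this]
  refine (card_le_card key).trans ?_
  refine card_biUnion_le.trans ?_
  have : ∀ cd ∈ T ×ˢ T, ((univ.filter (fun x : F =>
        (cd.1 + cd.2) * x ^ 2 + (-(2 * cd.2 * z.1)) * x + (cd.2 * z.1 ^ 2 - z.2) = 0)).image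
          (fun x => ((x, cd.1 * x ^ 2), (z.1 - x, cd.2 * (z.1 - x) ^ 2)))).card ≤ 2 := by
    intro cd hcd
    rw [mem_product] at hcd
    exact card_image_le.trans (card_quad_le_two _ _ _ (hne _ hcd.1 _ hcd.2))
  refine (sum_le_sum this).trans ?_
  rw [sum_const, card_product, smul_eq_mul]
  nlinarith [Nat.mul_le_mul hT hT]

lemma diff_le_aux {F : Type*} [Field F] [Fintype F] [DecidableEq F] (T : Finset F)
    (hT : T.card ≤ 3) (h0 : ∀ c ∈ T, 2 * c ≠ 0) (z : F × F) (hz : z ≠ 0) :
    ((parab T ×ˢ parab T).filter (fun p => p.1 - p.2 = z)).card ≤ 18 := by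
  classical
  have key : (parab T ×ˢ parab T).filter (fun p => p.1 - p.2 = z) ⊆
      (T ×ˢ T).biUnion (fun cd => (univ.filter (fun x : F =>
        (cd.1 - cd.2) * x ^ 2 + (2 * cd.2 * z.1) * x + (- cd.2 * z.1 ^ 2 - z.2) = 0)).image
          (fun x => ((x, cd.1 * x ^ 2), (x - z.1, cd.2 * (x - z.1) ^ 2)))) := by
    intro p hp
    simp only [mem_filter, mem_product, mem_parab] at hp
    obtain ⟨⟨⟨c, hc, h1⟩, ⟨d, hd, h2⟩⟩, h3⟩ := hp
    have e1 : p.1.1 - p.2.1 = z.1 := by rw [← h3]; rfl
    have e2 : p.1.2 - p.2.2 = z.2 := by rw [← h3]; rfl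
    simp only [mem_biUnion, mem_product, mem_image, mem_filter, mem_univ, true_and, Prod.exists]
    refine ⟨c, d, ⟨hc, hd⟩, p.1.1, ?_, ?_⟩
    · have : p.2.1 = p.1.1 - z.1 := by rw [← e1]; ring
      rw [h1, h2, this] at e2
      linear_combination e2
    · have : p.2.1 = p.1.1 - z.1 := by rw [← e1]; ring
      refine Prod.ext (Prod.ext rfl h1.symm) (Prod.ext this.symm ?_)
      simp only
      rw [h2, this]
  refine (card_le_card key).trans ?_
  refine card_biUnion_le.trans ?_
  have : ∀ cd ∈ T ×ˢ T, ((univ.filter (fun x : F =>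
        (cd.1 - cd.2) * x ^ 2 + (2 * cd.2 * z.1) * x + (- cd.2 * z.1 ^ 2 - z.2) = 0)).image
          (fun x => ((x, cd.1 * x ^ 2), (x - z.1, cd.2 * (x - z.1) ^ 2)))).card ≤ 2 := by
    intro cd hcd
    rw [mem_product] at hcd
    refine card_image_le.trans ?_
    by_cases hcd' : cd.1 - cd.2 = 0
    · by_cases hz1 : z.1 = 0
      · -- no solutions
        have hz2 : z.2 ≠ 0 := by
          intro h2
          exact hz (Prod.ext hz1 h2)
        have : (univ.filter (fun x : F =>
            (cd.1 - cd.2) * x ^ 2 + (2 * cd.2 * z.1) * x + (- cd.2 * z.1 ^ 2 - z.2) = 0)) = ∅ := by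
          apply filter_eq_empty_iff.2
          intro x _ hx
          rw [hcd', hz1] at hx
          apply hz2
          linear_combination -hx
        rw [this]
        simp
      · have : (univ.filter (fun x : F =>
            (cd.1 - cd.2) * x ^ 2 + (2 * cd.2 * z.1) * x + (- cd.2 * z.1 ^ 2 - z.2) = 0)).card
              ≤ 1 := by
          apply card_le_one.2
          intro x hx y hy
          simp only [mem_filter, mem_univ, true_and] at hx hy
          rw [hcd'] at hx hy
          have h1 : (2 * cd.2 * z.1) * (x - y) = 0 := by linear_combination hx - hy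
          rcases mul_eq_zero.1 h1 with h | h
          · rcases mul_eq_zero.1 h with h | h
            · exact absurd h (h0 _ hcd.2)
            · exact absurd h hz1
          · exact sub_eq_zero.1 h
        omega
    · exact card_quad_le_two _ _ _ hcd'
  refine (sum_le_sum this).trans ?_
  rw [sum_const, card_product, smul_eq_mul]
  nlinarith [Nat.mul_le_mul hT hT]

lemma exists_nonsquare_avoid (q : ℕ) [Fact q.Prime] (hq : 16 < q) :
    ∃ g : ZMod q, ¬ IsSquare g ∧ 1 + g ≠ 0 ∧ 3 + g ≠ 0 ∧ 3 * g + 1 ≠ 0 := by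
  classical
  have hne : ∀ m : ℕ, 0 < m → m < q → (m : ZMod q) ≠ 0 := by
    intro m hm hmq h
    rw [ZMod.natCast_eq_zero_iff] at h
    exact absurd (Nat.le_of_dvd hm h) (by omega)
  have hchar : ringChar (ZMod q) ≠ 2 := by
    rw [ZMod.ringChar_zmod_n]
    omega
  obtain ⟨g0, hg0⟩ := FiniteField.exists_nonsquare hchar
  have hg00 : g0 ≠ 0 := by
    rintro rfl
    exact hg0 (IsSquare.zero)
  have n3 : (3 : ZMod q) ≠ 0 := by exact_mod_cast hne 3 (by norm_num) (by omega)
  set S : Finset (ZMod q) := {g0 * 1, g0 * 4, g0 * 9, g0 * 16} with hS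
  have hd : ∀ a b : ZMod q, a - b ≠ 0 → g0 * a ≠ g0 * b := by
    intro a b hab h
    exact hab (sub_eq_zero.2 (mul_left_cancel₀ hg00 h))
  have e1 : (4 - 1 : ZMod q) ≠ 0 := by
    have : (4 - 1 : ZMod q) = ((3 : ℕ) : ZMod q) := by push_cast; ring
    rw [this]; exact hne 3 (by norm_num) (by omega)
  have e2 : (9 - 1 : ZMod q) ≠ 0 := by
    have : (9 - 1 : ZMod q) = ((8 : ℕ) : ZMod q) := by push_cast; ring
    rw [this]; exact hne 8 (by norm_num) (by omega)
  have e3 : (16 - 1 : ZMod q) ≠ 0 := by
    have : (16 - 1 : ZMod q) = ((15 : ℕ) : ZMod q) := by push_cast; ring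
    rw [this]; exact hne 15 (by norm_num) (by omega)
  have e4 : (9 - 4 : ZMod q) ≠ 0 := by
    have : (9 - 4 : ZMod q) = ((5 : ℕ) : ZMod q) := by push_cast; ring
    rw [this]; exact hne 5 (by norm_num) (by omega)
  have e5 : (16 - 4 : ZMod q) ≠ 0 := by
    have : (16 - 4 : ZMod q) = ((12 : ℕ) : ZMod q) := by push_cast; ring
    rw [this]; exact hne 12 (by norm_num) (by omega)
  have e6 : (16 - 9 : ZMod q) ≠ 0 := by
    have : (16 - 9 : ZMod q) = ((7 : ℕ) : ZMod q) := by push_cast; ring
    rw [this]; exact hne 7 (by norm_num) (by omega)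
  have hScard : S.card = 4 := by
    rw [hS, card_insert_of_notMem, card_insert_of_notMem, card_insert_of_notMem, card_singleton]
    · simp only [mem_singleton]
      exact (hd _ _ e6).symm
    · simp only [mem_insert, mem_singleton, not_or]
      exact ⟨(hd _ _ e4).symm, (hd _ _ e5).symm⟩
    · simp only [mem_insert, mem_singleton, not_or]
      exact ⟨(hd _ _ e1).symm, (hd _ _ e2).symm, (hd _ _ e3).symm⟩
  set B : Finset (ZMod q) := {-1, -3, -(3)⁻¹} with hB
  have hBcard : B.card ≤ 3 := card_le_three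
  obtain ⟨g, hgS, hgB⟩ := exists_mem_notMem_of_card_lt_card (s := B) (t := S) (by omega)
  refine ⟨g, ?_, ?_, ?_, ?_⟩
  · have hsq : ∀ k : ZMod q, k ≠ 0 → ¬ IsSquare (g0 * (k * k)) := by
      intro k hk hsq
      obtain ⟨r, hr⟩ := hsq
      apply hg0
      refine ⟨r / k, ?_⟩
      field_simp
      linear_combination hr
    have n2 : (2 : ZMod q) ≠ 0 := by exact_mod_cast hne 2 (by norm_num) (by omega)
    have n4 : (4 : ZMod q) ≠ 0 := by exact_mod_cast hne 4 (by norm_num) (by omega)
    rw [hS] at hgS
    simp only [mem_insert, mem_singleton] at hgS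
    rcases hgS with rfl | rfl | rfl | rfl
    · rw [mul_one]; exact hg0
    · have := hsq 2 n2
      rwa [show (2 * 2 : ZMod q) = 4 by norm_num] at this
    · have := hsq 3 n3
      rwa [show (3 * 3 : ZMod q) = 9 by norm_num] at this
    · have := hsq 4 n4
      rwa [show (4 * 4 : ZMod q) = 16 by norm_num] at this
  · intro h
    apply hgB
    rw [hB]
    have : g = -1 := by linear_combination h
    simp [this]
  · intro h
    apply hgB
    rw [hB]
    have : g = -3 := by linear_combination h
    simp [this]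
  · intro h
    apply hgB
    rw [hB]
    have : g = -(3)⁻¹ := by
      field_simp
      linear_combination h
    simp [this]

lemma exists_goodSet (q : ℕ) [Fact q.Prime] (hq : 16 < q) :
    ∃ G : Finset (ZMod q × ZMod q), GoodSet G := by
  classical
  obtain ⟨g, hg, h1, h2, h3⟩ := exists_nonsquare_avoid q hq
  have hne : ∀ m : ℕ, 0 < m → m < q → (m : ZMod q) ≠ 0 := by
    intro m hm hmq h
    rw [ZMod.natCast_eq_zero_iff] at h
    exact absurd (Nat.le_of_dvd hm h) (by omega)
  have n2 : (2 : ZMod q) ≠ 0 := by exact_mod_cast hne 2 (by norm_num) (by omega)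
  have hg0 : g ≠ 0 := by
    rintro rfl
    exact hg (IsSquare.zero)
  set T : Finset (ZMod q) := {2, 1 + g, (1 + g) / g} with hT
  have hTcard : T.card ≤ 3 := card_le_three
  have hsum : ∀ c ∈ T, ∀ d ∈ T, c + d ≠ 0 := by
    have a1 : (2 : ZMod q) + 2 ≠ 0 := by
      have := hne 4 (by norm_num) (by omega)
      intro h; apply this; push_cast; linear_combination h
    have a2 : (2 : ZMod q) + (1 + g) ≠ 0 := by
      intro h; apply h2; linear_combination h
    have a3 : (2 : ZMod q) + (1 + g) / g ≠ 0 := by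
      intro h; apply h3; field_simp at h; linear_combination h
    have a4 : (1 + g) + (1 + g) ≠ 0 := by
      intro h
      have : 2 * (1 + g) = 0 := by linear_combination h
      rcases mul_eq_zero.1 this with h | h
      · exact n2 h
      · exact h1 h
    have a5 : (1 + g) + (1 + g) / g ≠ 0 := by
      intro h
      field_simp at h
      have : (1 + g) * (1 + g) = 0 := by linear_combination h
      rcases mul_eq_zero.1 this with h | h
      · exact h1 h
      · exact h1 h
    have a6 : (1 + g) / g + (1 + g) / g ≠ 0 := by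
      intro h
      field_simp at h
      have : 2 * (1 + g) = 0 := by linear_combination h
      rcases mul_eq_zero.1 this with h | h
      · exact n2 h
      · exact h1 h
    intro c hc d hd
    rw [hT] at hc hd
    simp only [mem_insert, mem_singleton] at hc hd
    rcases hc with rfl | rfl | rfl <;> rcases hd with rfl | rfl | rfl
    · exact a1
    · exact a2
    · exact a3
    · rw [add_comm]; exact a2
    · exact a4
    · exact a5
    · rw [add_comm]; exact a3
    · rw [add_comm]; exact a5
    · exact a6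
  have hdbl : ∀ c ∈ T, 2 * c ≠ 0 := by
    intro c hc h
    exact hsum c hc c hc (by linear_combination h)
  refine ⟨parab T, ?_, ?_, sum_le_aux T hTcard hsum, diff_le_aux T hTcard hdbl⟩
  · refine (card_parab_le T).trans ?_
    exact Nat.mul_le_mul_right _ hTcard
  · intro z
    by_cases hD : IsSquare (z.2 - z.1 ^ 2)
    · obtain ⟨d, hd⟩ := hD
      refine ⟨((z.1 + d) / 2, 2 * ((z.1 + d) / 2) ^ 2), ?_,
        ((z.1 - d) / 2, 2 * ((z.1 - d) / 2) ^ 2), ?_, ?_⟩
      · rw [mem_parab]
        exact ⟨2, by rw [hT]; simp, rfl⟩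
      · rw [mem_parab]
        exact ⟨2, by rw [hT]; simp, rfl⟩
      · refine Prod.ext ?_ ?_
        · simp only [Prod.fst_add]
          field_simp
          ring
        · simp only [Prod.snd_add]
          field_simp
          linear_combination -2 * hd
    · have hDg : IsSquare (g * (z.2 - z.1 ^ 2)) := by
        have hD0 : z.2 - z.1 ^ 2 ≠ 0 := by
          intro h; apply hD; rw [h]; exact IsSquare.zero
        rw [← quadraticChar_neg_one_iff_not_isSquare] at hD hg
        rw [← quadraticChar_one_iff_isSquare (mul_ne_zero hg0 hD0), map_mul, hD, hg]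
        norm_num
      obtain ⟨e, he⟩ := hDg
      refine ⟨((z.1 + e) / (1 + g), (1 + g) * ((z.1 + e) / (1 + g)) ^ 2), ?_,
        ((g * z.1 - e) / (1 + g), ((1 + g) / g) * ((g * z.1 - e) / (1 + g)) ^ 2), ?_, ?_⟩
      · rw [mem_parab]
        exact ⟨1 + g, by rw [hT]; simp, rfl⟩
      · rw [mem_parab]
        exact ⟨(1 + g) / g, by rw [hT]; simp, rfl⟩
      · refine Prod.ext ?_ ?_
        · simp only [Prod.fst_add]
          field_simp
          ring
        · simp only [Prod.snd_add]
          field_simp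
          linear_combination (-1 - g) * he

end Pool.Agent.Helper3.Thin
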