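import Pool.Agent.Helper3.ThinRep
import Pool.Agent.Helper3.ThinAsym

set_option autoImplicit false
set_option linter.unusedSectionVars false

namespace Pool.Agent.Helper3.Thin

open Finset Filter

lemma exists_scales : ∃ q : ℕ → ℕ, (∀ k, (q k).Prime) ∧ 10 ^ 15 ≤ q 0 ∧
    (∀ k, 2 * q k ≤ q (k + 1)) ∧ (∀ k, q (k + 1) ≤ 4 * q k) := by
  have step : ∀ p : {p : ℕ // p.Prime ∧ 10 ^ 15 ≤ p}, ∃ p' : {p : ℕ // p.Prime ∧ 10 ^ 15 ≤ p},
      2 * p.1 ≤ p'.1 ∧ p'.1 ≤ 4 * p.1 := by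
    rintro ⟨p, hp, hp'⟩
    obtain ⟨r, hr, h1, h2⟩ := Nat.exists_prime_lt_and_le_two_mul (2 * p) (by
      have := hp.pos
      omega)
    exact ⟨⟨r, hr, by omega⟩, by simp only; omega, by simp only; omega⟩
  choose f hf using step
  obtain ⟨p0, hp0, hp1⟩ := Nat.exists_infinite_primes (10 ^ 15)
  set s : ℕ → {p : ℕ // p.Prime ∧ 10 ^ 15 ≤ p} :=
    fun n => Nat.rec (motive := fun _ => {p : ℕ // p.Prime ∧ 10 ^ 15 ≤ p}) ⟨p0, hp1, hp0⟩
      (fun _ x => f x) n with hs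
  refine ⟨fun k => (s k).1, fun k => (s k).2.1, (s 0).2.2, fun k => ?_, fun k => ?_⟩
  · exact (hf (s k)).1
  · exact (hf (s k)).2

/-- The pairs representing `n`. -/
lemma rep_finite (A : Set ℕ) (n : ℕ) :
    ({p : ℕ × ℕ | p.1 ∈ A ∧ p.2 ∈ A ∧ p.1 + p.2 = n}).Finite := by
  apply Set.Finite.subset (Finset.finite_toSet (HasAntidiagonal.antidiagonal n))
  intro p hp
  rw [Finset.mem_coe, HasAntidiagonal.mem_antidiagonal]
  exact hp.2.2

theorem exists_pre : ∃ A : Set ℕ, ∃ N0 : ℕ, (∀ n, N0 ≤ n → ∃ a ∈ A, ∃ b ∈ A, a + b = n) ∧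
    ∀ n : ℕ, ({p : ℕ × ℕ | p.1 ∈ A ∧ p.2 ∈ A ∧ p.1 + p.2 = n}).ncard
      ≤ 3 * (4096 * (4096 * (1296 + 58 * facBd n))) := by
  classical
  obtain ⟨q, hprime, hbig, hg1, hg2⟩ := exists_scales
  have hqp : ∀ k, Fact (q k).Prime := fun k => ⟨hprime k⟩
  have hmono : Monotone q := monotone_nat_of_le_succ (fun k => by
    have := hg1 k
    omega)
  have hlarge : ∀ k, 16 < q k := by
    intro k
    have h1 := hmono (Nat.zero_le k)
    have h2 : 16 < 10 ^ 15 := by norm_num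
    omega
  choose Γ hΓ using fun k => exists_goodSet (q k) (hlarge k)
  have hA : Adm q Γ := ⟨hΓ, hg1, by
    have h2 : 36 ≤ 10 ^ 15 := by norm_num
    omega⟩
  have hex := fun K => exists_tau hA hbig (fun k => facBd (q k)) (fun k => facBd_spec (q k)) K
  choose τ hτ using hex
  set U : Ultrafilter ℕ := hyperfilter ℕ with hU
  refine ⟨{a | ∀ᶠ K in (U : Filter ℕ), a ∈ Ak Γ (τ K)}, 4 * q 0 ^ 4, ?_, ?_⟩
  · intro n hn
    have h1 : ∀ᶠ K in (U : Filter ℕ), ∃ p ∈ ((HasAntidiagonal.antidiagonal n : Finset (ℕ × ℕ)) : Set (ℕ × ℕ)),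
        p.1 ∈ Ak Γ (τ K) ∧ p.2 ∈ Ak Γ (τ K) := by
      have h2 : ∀ᶠ K in (atTop : Filter ℕ), n < K := eventually_gt_atTop n
      have h3 : ∀ᶠ K in (U : Filter ℕ), n < K := Nat.hyperfilter_le_atTop h2
      filter_upwards [h3] with K hK
      obtain ⟨x, hx, y, hy, hxy⟩ := cover_all hA hg2 (τ K) n hn hK
      exact ⟨(x, y), by rw [Finset.mem_coe, HasAntidiagonal.mem_antidiagonal]; exact hxy, hx, hy⟩
    rw [Ultrafilter.eventually_exists_mem_iff (Finset.finite_toSet _)] at h1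
    obtain ⟨p, hp, h2⟩ := h1
    rw [Finset.mem_coe, HasAntidiagonal.mem_antidiagonal] at hp
    exact ⟨p.1, h2.mono (fun K hK => hK.1), p.2, h2.mono (fun K hK => hK.2), hp⟩
  · intro n
    set A : Set ℕ := {a | ∀ᶠ K in (U : Filter ℕ), a ∈ Ak Γ (τ K)} with hAdef
    have hfin := rep_finite A n
    set S := hfin.toFinset with hS
    have hcard : ({p : ℕ × ℕ | p.1 ∈ A ∧ p.2 ∈ A ∧ p.1 + p.2 = n}).ncard = S.card :=
      Set.ncard_eq_toFinset_card _ hfin
    rw [hcard]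
    have hall : ∀ᶠ K in (U : Filter ℕ), ∀ p ∈ S, p.1 ∈ Ak Γ (τ K) ∧ p.2 ∈ Ak Γ (τ K) := by
      rw [Filter.eventually_all_finset]
      intro p hp
      rw [hS, Set.Finite.mem_toFinset] at hp
      exact hp.1.and hp.2.1
    obtain ⟨K, hK⟩ := hall.exists
    apply rep_bound hA (τ K) (fun k => facBd (q k)) (hτ K) n (facBd n)
    · intro k hk
      exact facBd_mono hk
    · intro p hp
      refine ⟨(hK p hp).1, (hK p hp).2, ?_⟩
      rw [hS, Set.Finite.mem_toFinset] at hp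
      exact hp.2.2

/-- A thin basis of order two: every natural number is a sum of two elements of `A`, and the
number of representations of `n` is `O(log n / log log n)`. -/
theorem thin_basis : ∃ A : Set ℕ, (∀ n : ℕ, ∃ a ∈ A, ∃ b ∈ A, a + b = n) ∧
    ∃ C : ℝ, ∀ᶠ n : ℕ in atTop,
      (({p : ℕ × ℕ | p.1 ∈ A ∧ p.2 ∈ A ∧ p.1 + p.2 = n}).ncard : ℝ)
        ≤ C * (Real.log n / Real.log (Real.log n)) := by
  classical
  obtain ⟨A, N0, hcov, hrep⟩ := exists_pre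
  refine ⟨A ∪ {x | x ≤ N0}, ?_, ?_⟩
  · intro n
    rcases le_or_gt N0 n with h | h
    · obtain ⟨a, ha, b, hb, hab⟩ := hcov n h
      exact ⟨a, Or.inl ha, b, Or.inl hb, hab⟩
    · exact ⟨n, Or.inr h.le, 0, Or.inr (Nat.zero_le _), by simp⟩
  · have hbound : ∀ n : ℕ, ({p : ℕ × ℕ | p.1 ∈ A ∪ {x | x ≤ N0} ∧ p.2 ∈ A ∪ {x | x ≤ N0} ∧
        p.1 + p.2 = n}).ncard ≤ 3 * (4096 * (4096 * (1296 + 58 * facBd n))) +
          ((N0 + 1) + (N0 + 1)) := by
      intro n
      set X := {p : ℕ × ℕ | p.1 ∈ A ∧ p.2 ∈ A ∧ p.1 + p.2 = n} with hX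
      set Y : Finset (ℕ × ℕ) := (range (N0 + 1)).image (fun a => (a, n - a)) with hY
      set Z : Finset (ℕ × ℕ) := (range (N0 + 1)).image (fun b => (n - b, b)) with hZ
      have hsub : {p : ℕ × ℕ | p.1 ∈ A ∪ {x | x ≤ N0} ∧ p.2 ∈ A ∪ {x | x ≤ N0} ∧
          p.1 + p.2 = n} ⊆ X ∪ ((Y : Set (ℕ × ℕ)) ∪ (Z : Set (ℕ × ℕ))) := by
        rintro ⟨a, b⟩ ⟨ha, hb, hab⟩
        simp only at ha hb hab
        rcases ha with ha | ha
        · rcases hb with hb | hb
          · left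
            exact ⟨ha, hb, hab⟩
          · right; right
            rw [Finset.mem_coe, hZ, mem_image]
            refine ⟨b, ?_, ?_⟩
            · rw [mem_range]
              have : b ≤ N0 := hb
              omega
            · refine Prod.ext ?_ rfl
              simp only
              omega
        · right; left
          rw [Finset.mem_coe, hY, mem_image]
          refine ⟨a, ?_, ?_⟩
          · rw [mem_range]
            have : a ≤ N0 := ha
            omega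
          · refine Prod.ext rfl ?_
            simp only
            omega
      have hfin : (X ∪ ((Y : Set (ℕ × ℕ)) ∪ (Z : Set (ℕ × ℕ)))).Finite :=
        (rep_finite A n).union ((Finset.finite_toSet Y).union (Finset.finite_toSet Z))
      have hYc : Y.card ≤ N0 + 1 := by
        rw [hY]
        exact card_image_le.trans (by rw [card_range])
      have hZc : Z.card ≤ N0 + 1 := by
        rw [hZ]
        exact card_image_le.trans (by rw [card_range])
      calc _ ≤ (X ∪ ((Y : Set (ℕ × ℕ)) ∪ (Z : Set (ℕ × ℕ)))).ncard := Set.ncard_le_ncard hsub hfin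
        _ ≤ X.ncard + ((Y : Set (ℕ × ℕ)) ∪ (Z : Set (ℕ × ℕ))).ncard := Set.ncard_union_le _ _
        _ ≤ X.ncard + ((Y : Set (ℕ × ℕ)).ncard + (Z : Set (ℕ × ℕ)).ncard) :=
          Nat.add_le_add_left (Set.ncard_union_le _ _) _
        _ ≤ 3 * (4096 * (4096 * (1296 + 58 * facBd n))) + ((N0 + 1) + (N0 + 1)) := by
          rw [Set.ncard_coe_finset, Set.ncard_coe_finset]
          have := hrep n
          rw [← hX] at this
          omega
    refine ⟨3 * (4096 * (4096 * (1296 + 58 * 17))) + ((N0 + 1) + (N0 + 1)), ?_⟩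
    filter_upwards [facBd_bound] with n hn
    obtain ⟨h1, h2⟩ := hn
    set R := Real.log (n : ℝ) / Real.log (Real.log (n : ℝ)) with hR
    have h3 : (({p : ℕ × ℕ | p.1 ∈ A ∪ {x | x ≤ N0} ∧ p.2 ∈ A ∪ {x | x ≤ N0} ∧
        p.1 + p.2 = n}).ncard : ℝ) ≤ 3 * (4096 * (4096 * (1296 + 58 * (facBd n : ℝ)))) +
          (((N0 : ℝ) + 1) + ((N0 : ℝ) + 1)) := by
      exact_mod_cast hbound n
    refine h3.trans ?_
    have hN0 : (0 : ℝ) ≤ (N0 : ℝ) := Nat.cast_nonneg _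
    have h4 : ((N0 : ℝ) + 1) + ((N0 : ℝ) + 1) ≤ (((N0 : ℝ) + 1) + ((N0 : ℝ) + 1)) * R := by
      nlinarith
    have h5 : (1296 : ℝ) + 58 * (facBd n : ℝ) ≤ (1296 + 58 * 17) * R := by
      nlinarith
    nlinarith

end Pool.Agent.Helper3.Thin
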