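import Pool.Agent.Helper3.ThinCover

set_option autoImplicit false
set_option linter.unusedSectionVars false

namespace Pool.Agent.Helper3.Thin

open Finset

variable {q : ℕ → ℕ} [hqp : ∀ k, Fact (q k).Prime] {Γ : ∀ k, Finset (ZMod (q k) × ZMod (q k))}

/-- Base elements of scale `j`. -/
def Base (Γ : ∀ k, Finset (ZMod (q k) × ZMod (q k))) {K : ℕ} (τ : Om q K) (j : Fin K) (a : ℕ) :
    Prop :=
  a < q j ^ 4 ∧ dig (q j) a ∈ Γ j ∧ dig (q j) (a / q j ^ 2) - τ ⟨j, dig (q j) a⟩ ∈ Γ j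

/-- The finite stage of the construction. -/
def Ak (Γ : ∀ k, Finset (ZMod (q k) × ZMod (q k))) {K : ℕ} (τ : Om q K) : Set ℕ :=
  {x | ∃ j : Fin K, ∃ ε : Lab, ∃ a, Base Γ τ j a ∧ a + off (q j) ε = x}

lemma off_ge (p : ℕ) (ε : Lab) : p ^ 4 ≤ off p ε := by
  unfold off
  nlinarith [Nat.zero_le (ε.1 * p), Nat.zero_le (ε.2.1 * p ^ 2), Nat.zero_le (ε.2.2.1 * p ^ 3),
    Nat.zero_le (ε.2.2.2 * p ^ 4)]

lemma off_le (p : ℕ) (hp : 2 ≤ p) (ε : Lab) : off p ε ≤ 513 * p ^ 4 := by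
  unfold off
  have h1 := ε.1.isLt
  have h2 := ε.2.1.isLt
  have h3 := ε.2.2.1.isLt
  have h4 := ε.2.2.2.isLt
  have e1 : 2 * p ≤ p ^ 2 := by nlinarith
  have e2 : 2 * p ^ 2 ≤ p ^ 3 := by nlinarith [pow_pos (by omega : 0 < p) 2]
  have e3 : 2 * p ^ 3 ≤ p ^ 4 := by nlinarith [pow_pos (by omega : 0 < p) 3]
  have f1 : (ε.1 : ℕ) * p ≤ 1 * p := Nat.mul_le_mul_right _ (by omega)
  have f2 : (ε.2.1 : ℕ) * p ^ 2 ≤ 1 * p ^ 2 := Nat.mul_le_mul_right _ (by omega)
  have f3 : (ε.2.2.1 : ℕ) * p ^ 3 ≤ 1 * p ^ 3 := Nat.mul_le_mul_right _ (by omega)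
  have f4 : ((ε.2.2.2 : ℕ) + 1) * p ^ 4 ≤ 512 * p ^ 4 := Nat.mul_le_mul_right _ (by omega)
  omega

/-- If both elements of an edge are base elements then the edge is present. -/
lemma present {K : ℕ} (k : Fin K) (nn : Fin K → ℕ) (τ : Om q K) (e : (_ : Fin K) × ℕ)
    (h1 : Base Γ τ e.1 e.2) (h2 : Base Γ τ k (nn e.1 - e.2)) (c : Cell q K) :
    τ c ∈ boxE Γ k nn e c := by
  unfold boxE boxLo boxUp
  rw [mem_inter, mem_filter, mem_filter]
  refine ⟨⟨mem_univ _, ?_⟩, ⟨mem_univ _, ?_⟩⟩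
  · rintro ⟨c1, c2⟩
    obtain ⟨i, u⟩ := c
    simp only at c1 c2
    subst c1
    subst c2
    exact h1.2.2
  · rintro ⟨c1, c2⟩
    obtain ⟨i, u⟩ := c
    simp only at c1 c2
    subst c1
    subst c2
    exact h2.2.2

/-- Number of top elements representing `n` with a smaller scale. -/
lemma cross_bound (hA : Adm q Γ) {K : ℕ} (τ : Om q K) (M : ℕ → ℕ)
    (hF : ∀ k : Fin K, ∀ n < 1000 * q k ^ 4, ∀ ε : Lab, Fine Γ k (targ q n ε) (M k) 7 τ)
    (k : Fin K) (n : ℕ) (ε : Lab) (T : Finset ℕ)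
    (hT : ∀ b ∈ T, Base Γ τ k b ∧ ∃ j : Fin K, j < k ∧ ∃ a, Base Γ τ j a ∧
      a + off (q j) ε + b = n) :
    T.card ≤ 29 * M k := by
  classical
  rcases T.eq_empty_or_nonempty with rfl | hne
  · simp
  have hn : n < 1000 * q k ^ 4 := by
    obtain ⟨b, hb⟩ := hne
    obtain ⟨hb1, j, hjk, a, ha, hs⟩ := hT b hb
    have h1 := hb1.1
    have h2 := ha.1
    have h3 : q j < q k := hA.lt (j := j) (k := k) hjk
    have h4 : q j ^ 4 ≤ q k ^ 4 := Nat.pow_le_pow_left h3.le 4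
    have h5 := off_le (q j) (hqp j).out.two_le ε
    omega
  choose hTb j hjk a ha hs using hT
  set e : {b // b ∈ T} → (_ : Fin K) × ℕ := fun b => ⟨j b.1 b.2, a b.1 b.2⟩ with he
  have hsub : ∀ b : {b // b ∈ T}, targ q n ε (e b).1 - (e b).2 = b.1 ∧
      (e b).2 ≤ targ q n ε (e b).1 := by
    intro b
    have := hs b.1 b.2
    simp only [he, targ]
    omega
  have hinj : Function.Injective e := by
    intro b b' h
    have h1 := (hsub b).1
    have h2 := (hsub b').1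
    rw [h] at h1
    exact Subtype.ext (h1.symm.trans h2)
  set X := univ.image e with hX
  have hXc : X.card = T.card := by
    rw [hX, card_image_of_injective _ hinj, card_univ, Fintype.card_coe]
  have hmem : ∀ x ∈ X, ∃ b : {b // b ∈ T}, e b = x := by
    intro x hx
    rw [hX, mem_image] at hx
    obtain ⟨b, _, hb⟩ := hx
    exact ⟨b, hb⟩
  have hfine := hF k n hn ε X (by
    intro x hx
    obtain ⟨b, rfl⟩ := hmem x hx
    rw [mem_edges]
    refine ⟨hjk b.1 b.2, ?_⟩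
    rw [mem_edgeFib, (hsub b).1]
    exact ⟨(ha b.1 b.2).1, (hsub b).2, (hTb b.1 b.2).1, (ha b.1 b.2).2.1, (hTb b.1 b.2).2.1⟩)
    (by
      intro x hx c
      obtain ⟨b, rfl⟩ := hmem x hx
      apply present
      · exact ha b.1 b.2
      · rw [(hsub b).1]
        exact hTb b.1 b.2)
    (by
      intro x hx x' hx' h
      obtain ⟨b, rfl⟩ := hmem x hx
      obtain ⟨b', rfl⟩ := hmem x' hx'
      rw [(hsub b).1, (hsub b').1] at h
      have : b = b' := Subtype.ext h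
      rw [this])
  rw [hXc] at hfine
  omega

/-- Relevant scales. -/
lemma relevant_card (hA : Adm q Γ) (K n : ℕ) :
    (univ.filter (fun k : Fin K => q k ^ 4 ≤ n ∧ n ≤ 1028 * q k ^ 4)).card ≤ 3 := by
  classical
  set R := univ.filter (fun k : Fin K => q k ^ 4 ≤ n ∧ n ≤ 1028 * q k ^ 4) with hR
  rcases R.eq_empty_or_nonempty with h0 | hne
  · rw [h0]; simp
  set m := R.min' hne with hm
  have hmR : m ∈ R := min'_mem _ _
  have hmn := (mem_filter.1 hmR).2
  have h4 : ∀ i, 16 * q i ^ 4 ≤ q (i + 1) ^ 4 := by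
    intro i
    have := Nat.pow_le_pow_left (hA.grow i) 4
    calc 16 * q i ^ 4 = (2 * q i) ^ 4 := by ring
      _ ≤ _ := this
  have hbd : ∀ k ∈ R, (k : ℕ) < m + 3 := by
    intro k hk
    by_contra hc
    push Not at hc
    have h5 : q (m + 3) ≤ q k := by
      rcases Nat.eq_or_lt_of_le hc with h | h
      · rw [h]
      · exact (hA.lt h).le
    have h6 := Nat.pow_le_pow_left h5 4
    have h7 := h4 m
    have h8 := h4 (m + 1)
    have h9 := h4 (m + 2)
    have h10 := (mem_filter.1 hk).2.1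
    have h11 : 0 < q m ^ 4 := pow_pos (hqp m).out.pos 4
    have e1 : (m : ℕ) + 1 + 1 = m + 2 := by ring
    have e2 : (m : ℕ) + 2 + 1 = m + 3 := by ring
    rw [e1] at h8
    rw [e2] at h9
    omega
  have hsub : R.image (fun k : Fin K => (k : ℕ)) ⊆ Finset.Ico (m : ℕ) (m + 3) := by
    intro x hx
    rw [mem_image] at hx
    obtain ⟨k, hk, rfl⟩ := hx
    rw [mem_Ico]
    refine ⟨?_, hbd k hk⟩
    exact_mod_cast min'_le R k hk
  have := card_le_card hsub
  rw [card_image_of_injective _ Fin.val_injective, Nat.card_Ico] at this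
  omega

theorem rep_bound (hA : Adm q Γ) {K : ℕ} (τ : Om q K) (M : ℕ → ℕ)
    (hF : ∀ k : Fin K, ∀ n < 1000 * q k ^ 4, ∀ ε : Lab, Fine Γ k (targ q n ε) (M k) 7 τ)
    (n B : ℕ) (hB : ∀ k : Fin K, q k ≤ n → M k ≤ B) (S : Finset (ℕ × ℕ))
    (hS : ∀ p ∈ S, p.1 ∈ Ak Γ τ ∧ p.2 ∈ Ak Γ τ ∧ p.1 + p.2 = n) :
    S.card ≤ 3 * (4096 * (4096 * (1296 + 58 * B))) := by
  classical
  set R := univ.filter (fun k : Fin K => q k ^ 4 ≤ n ∧ n ≤ 1028 * q k ^ 4) with hR
  -- the pieces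
  set P1 : Fin K → Lab → Lab → Finset (ℕ × ℕ) := fun k ε ε' =>
    S.filter (fun p => ∃ a b, Base Γ τ k a ∧ Base Γ τ k b ∧ a + off (q k) ε = p.1 ∧
      b + off (q k) ε' = p.2) with hP1
  set P2 : Fin K → Lab → Lab → Finset (ℕ × ℕ) := fun k ε ε' =>
    S.filter (fun p => ∃ j : Fin K, j < k ∧ ∃ a b, Base Γ τ j a ∧ Base Γ τ k b ∧
      a + off (q j) ε = p.1 ∧ b + off (q k) ε' = p.2) with hP2
  set P3 : Fin K → Lab → Lab → Finset (ℕ × ℕ) := fun k ε ε' =>
    S.filter (fun p => ∃ j : Fin K, j < k ∧ ∃ a b, Base Γ τ j a ∧ Base Γ τ k b ∧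
      a + off (q j) ε = p.2 ∧ b + off (q k) ε' = p.1) with hP3
  have hrel : ∀ j k : Fin K, j ≤ k → ∀ (ε ε' : Lab) (a b : ℕ), Base Γ τ j a → Base Γ τ k b →
      a + off (q j) ε + (b + off (q k) ε') = n → k ∈ R := by
    intro j k hjk ε ε' a b ha hb hs
    rw [hR, mem_filter]
    have h1 := ha.1
    have h2 := hb.1
    have h3 : q j ≤ q k := by
      rcases eq_or_lt_of_le hjk with h | h
      · rw [h]
      · exact (hA.lt (j := j) (k := k) h).le
    have h4 : q j ^ 4 ≤ q k ^ 4 := Nat.pow_le_pow_left h3 4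
    have h5 := off_le (q j) (hqp j).out.two_le ε
    have h6 := off_le (q k) (hqp k).out.two_le ε'
    have h7 := off_ge (q k) ε'
    refine ⟨mem_univ _, ?_, ?_⟩
    · omega
    · omega
  have hcover : S ⊆ R.biUnion (fun k => univ.biUnion (fun ε : Lab => univ.biUnion (fun ε' : Lab =>
      P1 k ε ε' ∪ (P2 k ε ε' ∪ P3 k ε ε')))) := by
    intro p hp
    obtain ⟨⟨j, ε, a, ha, hpa⟩, ⟨k, ε', b, hb, hpb⟩, hs⟩ := hS p hp
    rw [mem_biUnion]
    rcases lt_trichotomy j k with hjk | hjk | hjk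
    · refine ⟨k, hrel j k hjk.le ε ε' a b ha hb (by rw [hpa, hpb, hs]), ?_⟩
      rw [mem_biUnion]
      refine ⟨ε, mem_univ _, ?_⟩
      rw [mem_biUnion]
      refine ⟨ε', mem_univ _, ?_⟩
      rw [mem_union, mem_union]
      right; left
      rw [hP2]
      simp only
      rw [mem_filter]
      exact ⟨hp, j, hjk, a, b, ha, hb, hpa, hpb⟩
    · subst hjk
      refine ⟨j, hrel j j le_rfl ε ε' a b ha hb (by rw [hpa, hpb, hs]), ?_⟩
      rw [mem_biUnion]
      refine ⟨ε, mem_univ _, ?_⟩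
      rw [mem_biUnion]
      refine ⟨ε', mem_univ _, ?_⟩
      rw [mem_union]
      left
      rw [hP1]
      simp only
      rw [mem_filter]
      exact ⟨hp, a, b, ha, hb, hpa, hpb⟩
    · refine ⟨j, hrel k j hjk.le ε' ε b a hb ha (by rw [hpa, hpb]; omega), ?_⟩
      rw [mem_biUnion]
      refine ⟨ε', mem_univ _, ?_⟩
      rw [mem_biUnion]
      refine ⟨ε, mem_univ _, ?_⟩
      rw [mem_union, mem_union]
      right; right
      rw [hP3]
      simp only
      rw [mem_filter]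
      exact ⟨hp, k, hjk, b, a, hb, ha, hpb, hpa⟩
  have hc1 : ∀ k ε ε', (P1 k ε ε').card ≤ 1296 := by
    intro k ε ε'
    have hmem : ∀ p ∈ P1 k ε ε', p.1 + p.2 = n ∧ ∃ a b, Base Γ τ k a ∧ Base Γ τ k b ∧
        a + off (q k) ε = p.1 ∧ b + off (q k) ε' = p.2 := by
      intro p hp
      rw [hP1] at hp
      simp only at hp
      rw [mem_filter] at hp
      exact ⟨(hS p hp.1).2.2, hp.2⟩
    have hinj : Set.InjOn (fun p : ℕ × ℕ => (p.1 - off (q k) ε, p.2 - off (q k) ε'))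
        (P1 k ε ε' : Set (ℕ × ℕ)) := by
      intro p hp p' hp' h
      obtain ⟨_, a, b, _, _, h1, h2⟩ := hmem p hp
      obtain ⟨_, a', b', _, _, h1', h2'⟩ := hmem p' hp'
      simp only [Prod.mk.injEq] at h
      exact Prod.ext (by omega) (by omega)
    rw [← card_image_of_injOn hinj]
    apply same_scale (hA.good k) (fun u => τ ⟨k, u⟩) (n - off (q k) ε - off (q k) ε')
    · intro p hp
      rw [mem_image] at hp
      obtain ⟨p', hp', rfl⟩ := hp
      obtain ⟨h0, a, b, _, _, h1, h2⟩ := hmem p' hp'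
      simp only
      omega
    · intro p hp
      rw [mem_image] at hp
      obtain ⟨p', hp', rfl⟩ := hp
      obtain ⟨h0, a, b, ha, hb, h1, h2⟩ := hmem p' hp'
      simp only
      rw [← h1, Nat.add_sub_cancel]
      exact ha
    · intro p hp
      rw [mem_image] at hp
      obtain ⟨p', hp', rfl⟩ := hp
      obtain ⟨h0, a, b, ha, hb, h1, h2⟩ := hmem p' hp'
      simp only
      rw [← h2, Nat.add_sub_cancel]
      exact hb
  have hc2 : ∀ k ε ε', (P2 k ε ε').card ≤ 29 * M k := by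
    intro k ε ε'
    have hmem : ∀ p ∈ P2 k ε ε', p.1 + p.2 = n ∧ ∃ j : Fin K, j < k ∧ ∃ a b, Base Γ τ j a ∧
        Base Γ τ k b ∧ a + off (q j) ε = p.1 ∧ b + off (q k) ε' = p.2 := by
      intro p hp
      rw [hP2] at hp
      simp only at hp
      rw [mem_filter] at hp
      exact ⟨(hS p hp.1).2.2, hp.2⟩
    have hinj : Set.InjOn (fun p : ℕ × ℕ => p.2 - off (q k) ε')
        (P2 k ε ε' : Set (ℕ × ℕ)) := by
      intro p hp p' hp' h
      obtain ⟨h0, j, _, a, b, _, _, h1, h2⟩ := hmem p hp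
      obtain ⟨h0', j', _, a', b', _, _, h1', h2'⟩ := hmem p' hp'
      simp only at h
      exact Prod.ext (by omega) (by omega)
    rw [← card_image_of_injOn hinj]
    apply cross_bound hA τ M hF k (n - off (q k) ε') ε
    intro b hb
    rw [mem_image] at hb
    obtain ⟨p, hp, rfl⟩ := hb
    obtain ⟨h0, j, hjk, a, b, ha, hb, h1, h2⟩ := hmem p hp
    have e : p.2 - off (q k) ε' = b := by omega
    rw [e]
    exact ⟨hb, j, hjk, a, ha, by omega⟩
  have hc3 : ∀ k ε ε', (P3 k ε ε').card ≤ 29 * M k := by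
    intro k ε ε'
    have hmem : ∀ p ∈ P3 k ε ε', p.1 + p.2 = n ∧ ∃ j : Fin K, j < k ∧ ∃ a b, Base Γ τ j a ∧
        Base Γ τ k b ∧ a + off (q j) ε = p.2 ∧ b + off (q k) ε' = p.1 := by
      intro p hp
      rw [hP3] at hp
      simp only at hp
      rw [mem_filter] at hp
      exact ⟨(hS p hp.1).2.2, hp.2⟩
    have hinj : Set.InjOn (fun p : ℕ × ℕ => p.1 - off (q k) ε')
        (P3 k ε ε' : Set (ℕ × ℕ)) := by
      intro p hp p' hp' h
      obtain ⟨h0, j, _, a, b, _, _, h1, h2⟩ := hmem p hp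
      obtain ⟨h0', j', _, a', b', _, _, h1', h2'⟩ := hmem p' hp'
      simp only at h
      exact Prod.ext (by omega) (by omega)
    rw [← card_image_of_injOn hinj]
    apply cross_bound hA τ M hF k (n - off (q k) ε') ε
    intro b hb
    rw [mem_image] at hb
    obtain ⟨p, hp, rfl⟩ := hb
    obtain ⟨h0, j, hjk, a, b, ha, hb, h1, h2⟩ := hmem p hp
    have e : p.1 - off (q k) ε' = b := by omega
    rw [e]
    exact ⟨hb, j, hjk, a, ha, by omega⟩
  have hpiece : ∀ k ∈ R, (univ.biUnion (fun ε : Lab => univ.biUnion (fun ε' : Lab =>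
      P1 k ε ε' ∪ (P2 k ε ε' ∪ P3 k ε ε')))).card ≤ 4096 * (4096 * (1296 + 58 * B)) := by
    intro k hk
    have hkB : M k ≤ B := by
      apply hB
      rw [hR, mem_filter] at hk
      refine le_trans ?_ hk.2.1
      exact Nat.le_self_pow (by norm_num) _
    have h1 : ∀ ε ∈ (univ : Finset Lab), (univ.biUnion (fun ε' : Lab =>
        P1 k ε ε' ∪ (P2 k ε ε' ∪ P3 k ε ε'))).card ≤ 4096 * (1296 + 58 * B) := by
      intro ε _
      have h2 : ∀ ε' ∈ (univ : Finset Lab),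
          (P1 k ε ε' ∪ (P2 k ε ε' ∪ P3 k ε ε')).card ≤ 1296 + 58 * B := by
        intro ε' _
        have g1 := hc1 k ε ε'
        have g2 := hc2 k ε ε'
        have g3 := hc3 k ε ε'
        have g4 := card_union_le (P1 k ε ε') (P2 k ε ε' ∪ P3 k ε ε')
        have g5 := card_union_le (P2 k ε ε') (P3 k ε ε')
        omega
      have := card_biUnion_le_card_mul univ _ _ h2
      rwa [card_univ, card_Lab] at this
    have := card_biUnion_le_card_mul univ _ _ h1
    rwa [card_univ, card_Lab] at this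
  have hR3 := relevant_card hA K n
  calc S.card ≤ _ := card_le_card hcover
    _ ≤ R.card * (4096 * (4096 * (1296 + 58 * B))) := card_biUnion_le_card_mul R _ _ hpiece
    _ ≤ 3 * (4096 * (4096 * (1296 + 58 * B))) := Nat.mul_le_mul_right _ hR3

/-- Coverage by the finite stage. -/
theorem cover_all (hA : Adm q Γ) (hgr : ∀ k, q (k + 1) ≤ 4 * q k) {K : ℕ} (τ : Om q K) (n : ℕ)
    (h1 : 4 * q 0 ^ 4 ≤ n) (hn : n < K) : ∃ x ∈ Ak Γ τ, ∃ y ∈ Ak Γ τ, x + y = n := by
  classical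
  -- a scale with `4 q_j^4 ≤ n ≤ 1024 q_j^4`
  have hex : ∃ j, n ≤ 1024 * q j ^ 4 := by
    refine ⟨n, ?_⟩
    have h2 : n ≤ q n := by
      have hm : StrictMono q := strictMono_nat_of_lt_succ (fun i => hA.lt (Nat.lt_succ_self i))
      exact hm.le_apply
    have h3 : q n ≤ q n ^ 4 := Nat.le_self_pow (by norm_num) _
    omega
  have hj := Nat.find_spec hex
  set j := Nat.find hex with hjdef
  have hjn : j ≤ n := by
    apply Nat.find_min'
    have h2 : n ≤ q n := by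
      have hm : StrictMono q := strictMono_nat_of_lt_succ (fun i => hA.lt (Nat.lt_succ_self i))
      exact hm.le_apply
    have h3 : q n ≤ q n ^ 4 := Nat.le_self_pow (by norm_num) _
    omega
  have hlow : 4 * q j ^ 4 ≤ n := by
    rcases Nat.eq_zero_or_pos j with h0 | hpos
    · rw [h0]; exact h1
    · obtain ⟨i, hi⟩ : ∃ i, j = i + 1 := ⟨j - 1, by omega⟩
      have hlt : i < j := by omega
      have h2 := Nat.find_min hex hlt
      push Not at h2
      have h3 := Nat.pow_le_pow_left (hgr i) 4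
      rw [hi]
      calc 4 * q (i + 1) ^ 4 ≤ 4 * (4 * q i) ^ 4 := by omega
        _ = 1024 * q i ^ 4 := by ring
        _ ≤ n := h2.le
  have hjK : j < K := lt_of_le_of_lt hjn hn
  obtain ⟨a, b, ε, ε', ha, hb, hab⟩ := cover_one (hA.good j)
    (fun u => τ ⟨⟨j, hjK⟩, u⟩) n hlow hj
  exact ⟨a + off (q j) ε, ⟨⟨j, hjK⟩, ε, a, ha, rfl⟩, b + off (q j) ε',
    ⟨⟨j, hjK⟩, ε', b, hb, rfl⟩, hab⟩

end Pool.Agent.Helper3.Thin
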