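import Pool.Agent.Helper3.ThinBox

set_option autoImplicit false
set_option linter.unusedSectionVars false

namespace Pool.Agent.Helper3.Thin

open Finset

lemma sum_fin_lt {M : Type*} [AddCommMonoid M] {K : ℕ} (k : Fin K) (f : ℕ → M) :
    ∑ j ∈ univ.filter (fun j : Fin K => j < k), f (j : ℕ) = ∑ i ∈ range (k : ℕ), f i := by
  refine sum_bij (fun j _ => (j : ℕ)) ?_ ?_ ?_ ?_
  · intro j hj
    rw [mem_filter] at hj
    rw [mem_range]
    exact hj.2
  · intro a _ b _ h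
    exact Fin.ext h
  · intro i hi
    rw [mem_range] at hi
    exact ⟨⟨i, hi.trans k.2⟩, by rw [mem_filter]; exact ⟨mem_univ _, hi⟩, rfl⟩
  · intro j _
    rfl

variable {q : ℕ → ℕ} [hqp : ∀ k, Fact (q k).Prime] {Γ : ∀ k, Finset (ZMod (q k) × ZMod (q k))}

lemma qpos (k : ℕ) : (0 : ℝ) < q k := by exact_mod_cast (hqp k).out.pos

lemma sum_q_le (h : Adm q Γ) {K : ℕ} (k : Fin K) :
    ∑ j ∈ univ.filter (fun j : Fin K => j < k), (q j : ℝ) ≤ q k := by
  rw [sum_fin_lt k (fun i => (q i : ℝ))]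
  exact_mod_cast h.sum_le k

/-- Summation over edges of a weight depending only on the scale. -/
lemma sum_edges_le (h : Adm q Γ) {K : ℕ} (k : Fin K) (nn : Fin K → ℕ) (f : ℕ → ℝ)
    (hf : ∀ j, 0 ≤ f j) :
    ∑ e ∈ edges q Γ k nn, f e.1 ≤
      ∑ j ∈ univ.filter (fun j : Fin K => j < k), 27 * (q j : ℝ) ^ 2 * f j := by
  unfold edges
  rw [sum_sigma]
  refine sum_le_sum (fun j hj => ?_)
  rw [mem_filter] at hj
  simp only [sum_const, nsmul_eq_mul]
  have h1 : (((edgeFib q Γ k nn j).card : ℕ) : ℝ) ≤ 27 * (q j : ℝ) ^ 2 := by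
    exact_mod_cast card_edgeFib_le h nn hj.2
  exact mul_le_mul_of_nonneg_right h1 (hf _)

lemma W1_le (h : Adm q Γ) {K : ℕ} (k : Fin K) (nn : Fin K → ℕ) :
    ∑ e ∈ edges q Γ k nn, 3 / (q e.1 : ℝ) * (3 / (q k : ℝ)) ≤ 243 := by
  refine (sum_edges_le h k nn (fun j => 3 / (q j : ℝ) * (3 / (q k : ℝ)))
    (fun j => by positivity)).trans ?_
  have h1 : ∀ j : Fin K, 27 * (q j : ℝ) ^ 2 * (3 / (q j : ℝ) * (3 / (q k : ℝ)))
      = 243 / (q k : ℝ) * (q j : ℝ) := by
    intro j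
    have := qpos (q := q) j
    have := qpos (q := q) k
    field_simp
    ring
  rw [sum_congr rfl (fun j _ => h1 j), ← mul_sum]
  have hk := qpos (q := q) k
  calc 243 / (q k : ℝ) * _ ≤ 243 / (q k : ℝ) * (q k : ℝ) :=
        mul_le_mul_of_nonneg_left (sum_q_le h k) (by positivity)
    _ = 243 := by field_simp

lemma S3_le (h : Adm q Γ) {K : ℕ} (k : Fin K) (nn : Fin K → ℕ) :
    ∑ e ∈ edges q Γ k nn, 3 / (q e.1 : ℝ) ≤ 81 * (q k : ℝ) := by
  refine (sum_edges_le h k nn (fun j => 3 / (q j : ℝ)) (fun j => by positivity)).trans ?_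
  have h1 : ∀ j : Fin K, 27 * (q j : ℝ) ^ 2 * (3 / (q j : ℝ)) = 81 * (q j : ℝ) := by
    intro j
    have := qpos (q := q) j
    field_simp
    ring
  rw [sum_congr rfl (fun j _ => h1 j), ← mul_sum]
  exact mul_le_mul_of_nonneg_left (sum_q_le h k) (by norm_num)

lemma S2_le (h : Adm q Γ) {K : ℕ} (k : Fin K) (nn : Fin K → ℕ) :
    ∑ e ∈ edges q Γ k nn, 1 / (q e.1 : ℝ) ≤ 27 * (q k : ℝ) := by
  have := S3_le h k nn
  have h1 : ∑ e ∈ edges q Γ k nn, 3 / (q e.1 : ℝ) = 3 * ∑ e ∈ edges q Γ k nn, 1 / (q e.1 : ℝ) := by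
    rw [mul_sum]
    refine sum_congr rfl (fun e _ => by ring)
  linarith

/-- degree of a lower cell -/
lemma deg_lo_card (h : Adm q Γ) {K : ℕ} (k : Fin K) (nn : Fin K → ℕ) (c : Cell q K)
    (hc : c.1 < k) :
    ((edges q Γ k nn).filter (fun e => lo q e = c)).card ≤ 9 * q c.1 := by
  obtain ⟨j, u⟩ := c
  refine le_trans ?_ (deg_lo_le h nn (j := j) hc u)
  refine card_le_card_of_injOn (fun e => e.2) ?_ ?_
  · rintro ⟨j', a⟩ he
    simp only [coe_filter, Set.mem_ofPred_eq, mem_edges] at he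
    obtain ⟨⟨h1, h2⟩, h3⟩ := he
    have hj : j' = j := congrArg Sigma.fst h3
    subst hj
    have hd : dig (q j') a = u := eq_of_heq (Sigma.mk.inj_iff.1 h3).2
    simp only [coe_filter, Set.mem_ofPred_eq]
    exact ⟨h2, hd⟩
  · rintro ⟨j', a⟩ he ⟨j'', a'⟩ he' haa
    simp only [coe_filter, Set.mem_ofPred_eq, mem_edges] at he he'
    have hj : j' = j := congrArg Sigma.fst he.2
    have hj' : j'' = j := congrArg Sigma.fst he'.2
    subst hj
    subst hj'
    simp only at haa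
    rw [haa]

lemma W3_le (h : Adm q Γ) {K : ℕ} (k : Fin K) (nn : Fin K → ℕ) (c : Cell q K)
    (hc : c.1 < k) :
    ∑ _e ∈ (edges q Γ k nn).filter (fun e => lo q e = c), 3 / (q k : ℝ) ≤ 27 := by
  rw [sum_const, nsmul_eq_mul]
  have h1 : ((((edges q Γ k nn).filter (fun e => lo q e = c)).card : ℕ) : ℝ)
      ≤ 9 * (q c.1 : ℝ) := by
    exact_mod_cast deg_lo_card h k nn c hc
  have h2 : (q c.1 : ℝ) ≤ q k := by
    exact_mod_cast (h.lt (j := c.1) (k := k) hc).le
  have hk := qpos (q := q) k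
  calc _ ≤ 9 * (q k : ℝ) * (3 / (q k : ℝ)) := by
        apply mul_le_mul_of_nonneg_right _ (by positivity)
        linarith
    _ = 27 := by field_simp; norm_num

lemma W4_le (h : Adm q Γ) {K : ℕ} (k : Fin K) (nn : Fin K → ℕ) (c : Cell q K) :
    ∑ e ∈ (edges q Γ k nn).filter (fun e => up q k nn e = c), 3 / (q e.1 : ℝ) ≤ 28 := by
  by_cases hc : c.1 = k
  · obtain ⟨j, v⟩ := c
    simp only at hc
    subst hc
    have hset : (edges q Γ j nn).filter (fun e => up q j nn e = ⟨j, v⟩) =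
        (univ.filter (fun i => i < j)).sigma
          (fun i => (edgeFib q Γ j nn i).filter (fun a => dig (q j) (nn i - a) = v)) := by
      ext ⟨i, a⟩
      rw [mem_filter, mem_edges, mem_sigma, mem_filter, mem_filter]
      simp only [mem_univ, true_and]
      constructor
      · rintro ⟨⟨h1, h2⟩, h3⟩
        exact ⟨h1, h2, eq_of_heq (Sigma.mk.inj_iff.1 h3).2⟩
      · rintro ⟨h1, h2, h3⟩
        refine ⟨⟨h1, h2⟩, ?_⟩
        unfold up
        simp only
        rw [h3]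
    rw [hset, sum_sigma]
    have hterm : ∀ i ∈ univ.filter (fun i : Fin K => i < j),
        ∑ e ∈ (edgeFib q Γ j nn i).filter (fun a => dig (q j) (nn i - a) = v), 3 / (q i : ℝ)
          ≤ 27 / (q j : ℝ) * (q i : ℝ) + 18 * (1 / (q i : ℝ)) := by
      intro i hi
      rw [mem_filter] at hi
      rw [sum_const, nsmul_eq_mul]
      have h1 := deg_up_le h nn hi.2 v
      have hi0 := qpos (q := q) i
      have hj0 := qpos (q := q) j
      calc _ ≤ (9 * (q i : ℝ) ^ 2 / (q j : ℝ) + 6) * (3 / (q i : ℝ)) :=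
            mul_le_mul_of_nonneg_right h1 (by positivity)
        _ = _ := by field_simp; ring
    refine (sum_le_sum hterm).trans ?_
    rw [sum_add_distrib, ← mul_sum, ← mul_sum]
    have e1 : 27 / (q j : ℝ) * ∑ i ∈ univ.filter (fun i : Fin K => i < j), (q i : ℝ) ≤ 27 := by
      have hj0 := qpos (q := q) j
      calc _ ≤ 27 / (q j : ℝ) * (q j : ℝ) :=
            mul_le_mul_of_nonneg_left (sum_q_le h j) (by positivity)
        _ = 27 := by field_simp
    have e2 : ∑ i ∈ univ.filter (fun i : Fin K => i < j), (1 : ℝ) / (q i : ℝ) ≤ 1 / 18 := by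
      rw [sum_fin_lt j (fun i => (1 : ℝ) / (q i : ℝ))]
      have h1 := h.sum_inv_le j
      have h2 : (2 : ℝ) / (q 0 : ℝ) ≤ 1 / 18 := by
        have h36 : (36 : ℝ) ≤ q 0 := by exact_mod_cast h.big
        rw [div_le_div_iff₀ (by linarith) (by norm_num)]
        linarith
      have h3 : (0 : ℝ) ≤ 2 / (q j : ℝ) := by positivity
      linarith
    linarith
  · have : (edges q Γ k nn).filter (fun e => up q k nn e = c) = ∅ := by
      rw [filter_eq_empty_iff]
      intro e _ he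
      apply hc
      rw [← he]
      rfl
    rw [this, sum_empty]
    norm_num

/-- The cherries that can occur among present edges with distinct upper elements. -/
def cherries (q : ℕ → ℕ) [hqp : ∀ k, Fact (q k).Prime]
    (Γ : ∀ k, Finset (ZMod (q k) × ZMod (q k))) {K : ℕ} (k : Fin K) (nn : Fin K → ℕ) :
    Finset (((_ : Fin K) × ℕ) × ((_ : Fin K) × ℕ)) :=
  (edges q Γ k nn ×ˢ edges q Γ k nn).filter (fun p =>
    (lo q p.1 = lo q p.2 ∧ p.1 ≠ p.2 ∧ up q k nn p.1 ≠ up q k nn p.2) ∨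
    (up q k nn p.1 = up q k nn p.2 ∧ nn p.1.1 - p.1.2 ≠ nn p.2.1 - p.2.2 ∧
      lo q p.1 ≠ lo q p.2))

/-- weight of a cherry -/
noncomputable def wch (q : ℕ → ℕ) [hqp : ∀ k, Fact (q k).Prime] {K : ℕ} (k : Fin K)
    (p : ((_ : Fin K) × ℕ) × ((_ : Fin K) × ℕ)) : ℝ := by
  classical
  exact if lo q p.1 = lo q p.2 then 18 / (q p.1.1 : ℝ) ^ 2 * (3 / (q k : ℝ) * (3 / (q k : ℝ)))
  else 18 / (q k : ℝ) ^ 2 * (3 / (q p.1.1 : ℝ) * (3 / (q p.2.1 : ℝ)))

lemma dens_le_wch (h : Adm q Γ) {K : ℕ} (k : Fin K) (nn : Fin K → ℕ)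
    (p : ((_ : Fin K) × ℕ) × ((_ : Fin K) × ℕ)) (hp : p ∈ cherries q Γ k nn) :
    dens (boxP Γ k nn p) ≤ wch q k p := by
  unfold cherries at hp
  rw [mem_filter, mem_product, mem_edges, mem_edges, mem_edgeFib, mem_edgeFib] at hp
  obtain ⟨⟨⟨h1, h2⟩, ⟨h3, h4⟩⟩, h5 | h5⟩ := hp
  · unfold wch
    rw [if_pos h5.1]
    exact dens_boxP_lo h k nn p.1 p.2 h1 h5.1 h5.2.1 h5.2.2 h2.1 h4.1
  · unfold wch
    rw [if_neg h5.2.2]
    exact dens_boxP_up h k nn p.1 p.2 h1 h3 h5.1 h5.2.1 h5.2.2 h2.2.2.1 h4.2.2.1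

lemma W2_le (h : Adm q Γ) {K : ℕ} (k : Fin K) (nn : Fin K → ℕ) :
    ∑ p ∈ cherries q Γ k nn, wch q k p ≤ 100000 / (q k : ℝ) := by
  classical
  have hk := qpos (q := q) k
  set E := edges q Γ k nn with hE
  -- split
  have hsplit : ∑ p ∈ cherries q Γ k nn, wch q k p ≤
      ∑ e ∈ E, ∑ e' ∈ E.filter (fun e' => lo q e' = lo q e),
        18 / (q e.1 : ℝ) ^ 2 * (3 / (q k : ℝ) * (3 / (q k : ℝ)))
      + ∑ e ∈ E, ∑ e' ∈ E.filter (fun e' => up q k nn e' = up q k nn e),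
        18 / (q k : ℝ) ^ 2 * (3 / (q e.1 : ℝ) * (3 / (q e'.1 : ℝ))) := by
    have a1 : ∑ e ∈ E, ∑ e' ∈ E.filter (fun e' => lo q e' = lo q e),
        18 / (q e.1 : ℝ) ^ 2 * (3 / (q k : ℝ) * (3 / (q k : ℝ)))
        = ∑ p ∈ (E ×ˢ E).filter (fun p => lo q p.2 = lo q p.1),
          18 / (q p.1.1 : ℝ) ^ 2 * (3 / (q k : ℝ) * (3 / (q k : ℝ))) := by
      rw [sum_filter, sum_product]
      refine sum_congr rfl (fun e _ => ?_)
      rw [sum_filter]
    have a2 : ∑ e ∈ E, ∑ e' ∈ E.filter (fun e' => up q k nn e' = up q k nn e),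
        18 / (q k : ℝ) ^ 2 * (3 / (q e.1 : ℝ) * (3 / (q e'.1 : ℝ)))
        = ∑ p ∈ (E ×ˢ E).filter (fun p => up q k nn p.2 = up q k nn p.1),
          18 / (q k : ℝ) ^ 2 * (3 / (q p.1.1 : ℝ) * (3 / (q p.2.1 : ℝ))) := by
      rw [sum_filter, sum_product]
      refine sum_congr rfl (fun e _ => ?_)
      rw [sum_filter]
    rw [a1, a2]
    have hsub1 : (cherries q Γ k nn).filter (fun p => lo q p.1 = lo q p.2) ⊆
        (E ×ˢ E).filter (fun p => lo q p.2 = lo q p.1) := by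
      intro p hp
      rw [mem_filter] at hp
      unfold cherries at hp
      rw [mem_filter] at hp
      rw [mem_filter]
      exact ⟨hp.1.1, hp.2.symm⟩
    have hsub2 : (cherries q Γ k nn).filter (fun p => ¬ lo q p.1 = lo q p.2) ⊆
        (E ×ˢ E).filter (fun p => up q k nn p.2 = up q k nn p.1) := by
      intro p hp
      rw [mem_filter] at hp
      unfold cherries at hp
      rw [mem_filter] at hp
      rw [mem_filter]
      refine ⟨hp.1.1, ?_⟩
      rcases hp.1.2 with h1 | h1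
      · exact absurd h1.1 hp.2
      · exact h1.1.symm
    rw [← sum_filter_add_sum_filter_not (cherries q Γ k nn) (fun p => lo q p.1 = lo q p.2)]
    apply add_le_add
    · have e1 : ∑ p ∈ (cherries q Γ k nn).filter (fun p => lo q p.1 = lo q p.2), wch q k p
          = ∑ p ∈ (cherries q Γ k nn).filter (fun p => lo q p.1 = lo q p.2),
            18 / (q p.1.1 : ℝ) ^ 2 * (3 / (q k : ℝ) * (3 / (q k : ℝ))) := by
        refine sum_congr rfl (fun p hp => ?_)
        rw [mem_filter] at hp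
        unfold wch
        rw [if_pos hp.2]
      rw [e1]
      exact sum_le_sum_of_subset_of_nonneg hsub1 (fun _ _ _ => by positivity)
    · have e1 : ∑ p ∈ (cherries q Γ k nn).filter (fun p => ¬ lo q p.1 = lo q p.2), wch q k p
          = ∑ p ∈ (cherries q Γ k nn).filter (fun p => ¬ lo q p.1 = lo q p.2),
            18 / (q k : ℝ) ^ 2 * (3 / (q p.1.1 : ℝ) * (3 / (q p.2.1 : ℝ))) := by
        refine sum_congr rfl (fun p hp => ?_)
        rw [mem_filter] at hp
        unfold wch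
        rw [if_neg hp.2]
      rw [e1]
      exact sum_le_sum_of_subset_of_nonneg hsub2 (fun _ _ _ => by positivity)
  -- first sum
  have hA : ∑ e ∈ E, ∑ e' ∈ E.filter (fun e' => lo q e' = lo q e),
      18 / (q e.1 : ℝ) ^ 2 * (3 / (q k : ℝ) * (3 / (q k : ℝ))) ≤ 39366 / (q k : ℝ) := by
    have h1 : ∀ e ∈ E, ∑ e' ∈ E.filter (fun e' => lo q e' = lo q e),
        18 / (q e.1 : ℝ) ^ 2 * (3 / (q k : ℝ) * (3 / (q k : ℝ)))
        ≤ 1458 / (q k : ℝ) ^ 2 * (1 / (q e.1 : ℝ)) := by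
      intro e he
      rw [sum_const, nsmul_eq_mul]
      have h2 : (((E.filter (fun e' => lo q e' = lo q e)).card : ℕ) : ℝ) ≤ 9 * (q e.1 : ℝ) := by
        have := deg_lo_card h k nn (lo q e) (mem_edges.1 he).1
        exact_mod_cast this
      have he0 := qpos (q := q) e.1
      calc _ ≤ 9 * (q e.1 : ℝ) * (18 / (q e.1 : ℝ) ^ 2 * (3 / (q k : ℝ) * (3 / (q k : ℝ)))) :=
            mul_le_mul_of_nonneg_right h2 (by positivity)
        _ = _ := by field_simp; norm_num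
    refine (sum_le_sum h1).trans ?_
    rw [← mul_sum]
    calc _ ≤ 1458 / (q k : ℝ) ^ 2 * (27 * (q k : ℝ)) :=
          mul_le_mul_of_nonneg_left (S2_le h k nn) (by positivity)
      _ = _ := by field_simp; norm_num
  -- second sum
  have hB : ∑ e ∈ E, ∑ e' ∈ E.filter (fun e' => up q k nn e' = up q k nn e),
      18 / (q k : ℝ) ^ 2 * (3 / (q e.1 : ℝ) * (3 / (q e'.1 : ℝ))) ≤ 40824 / (q k : ℝ) := by
    have h1 : ∀ e ∈ E, ∑ e' ∈ E.filter (fun e' => up q k nn e' = up q k nn e),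
        18 / (q k : ℝ) ^ 2 * (3 / (q e.1 : ℝ) * (3 / (q e'.1 : ℝ)))
        ≤ 504 / (q k : ℝ) ^ 2 * (3 / (q e.1 : ℝ)) := by
      intro e he
      rw [← mul_sum, ← mul_sum]
      have h2 := W4_le h k nn (up q k nn e)
      have he0 := qpos (q := q) e.1
      calc _ ≤ 18 / (q k : ℝ) ^ 2 * (3 / (q e.1 : ℝ) * 28) := by
            apply mul_le_mul_of_nonneg_left _ (by positivity)
            exact mul_le_mul_of_nonneg_left h2 (by positivity)
        _ = _ := by ring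
    refine (sum_le_sum h1).trans ?_
    rw [← mul_sum]
    calc _ ≤ 504 / (q k : ℝ) ^ 2 * (81 * (q k : ℝ)) :=
          mul_le_mul_of_nonneg_left (S3_le h k nn) (by positivity)
      _ = _ := by field_simp; norm_num
  calc _ ≤ _ := hsplit
    _ ≤ 39366 / (q k : ℝ) + 40824 / (q k : ℝ) := add_le_add hA hB
    _ = 80190 / (q k : ℝ) := by ring
    _ ≤ 100000 / (q k : ℝ) := by gcongr; norm_num

end Pool.Agent.Helper3.Thin
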